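import Pool.Agent.H62.LV.Defs

/-!
Auxiliary notions for the Lotka-Volterra control problem (shared by the parts of the proof).
-/

namespace Pool.Agent.H62.LV

open MeasureTheory Set Filter Topology

/-! ## Common notions -/

/-- continuous on `(0,∞) × (0,L)`, bounded on bounded time intervals -/
structure Reg (L : ℝ) (w : ℝ → ℝ → ℝ) : Prop where
  cont : ContinuousOn (fun z : ℝ × ℝ => w z.1 z.2) (Ioi 0 ×ˢ Ioo 0 L)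
  bdd : ∀ T : ℝ, ∃ C : ℝ, ∀ t ∈ Ioc 0 T, ∀ x ∈ Ioo 0 L, |w t x| ≤ C

/-- boundary data: measurable and bounded -/
def BData (l : ℝ → ℝ) : Prop := Measurable l ∧ ∃ C : ℝ, ∀ t, 0 < t → |l t| ≤ C

/-- the `n`-th Dirichlet eigenfunction (`n = 0, 1, 2, …`) -/
noncomputable def eig (L : ℝ) (n : ℕ) (x : ℝ) : ℝ := Real.sin ((n + 1) * Real.pi * x / L)

/-- the `n`-th Dirichlet eigenvalue -/
noncomputable def mu (L : ℝ) (n : ℕ) : ℝ := ((n + 1) * Real.pi / L) ^ 2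

/-- finite sine sum with coefficients `c` after time `τ` of the heat flow -/
noncomputable def flow (L : ℝ) (N : ℕ) (c : ℕ → ℝ) (τ x : ℝ) : ℝ :=
  ∑ n ∈ Finset.range N, c n * Real.exp (-(mu L n) * τ) * eig L n x

/-- its space derivative -/
noncomputable def flow' (L : ℝ) (N : ℕ) (c : ℕ → ℝ) (τ x : ℝ) : ℝ :=
  ∑ n ∈ Finset.range N,
    c n * Real.exp (-(mu L n) * τ) * ((n + 1) * Real.pi / L * Real.cos ((n + 1) * Real.pi * x / L))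

/-- sine coefficients -/
noncomputable def coef (L : ℝ) (g : ℝ → ℝ) (n : ℕ) : ℝ :=
  2 / L * ∫ x in (0 : ℝ)..L, g x * eig L n x

/-- coefficients of the mild solution -/
noncomputable def mcoef (L K : ℝ) (h₀ : ℝ → ℝ) (H : ℝ → ℝ → ℝ) (n : ℕ) (t : ℝ) : ℝ :=
  Real.exp (-(K + mu L n) * t) * coef L h₀ n +
    ∫ s in (0 : ℝ)..t, Real.exp (-(K + mu L n) * (t - s)) * coef L (H s) n

/-- mild solution of `w_t - w_xx + K w = H`, zero boundary data, initial datum `h₀` -/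
noncomputable def mild (L K : ℝ) (h₀ : ℝ → ℝ) (H : ℝ → ℝ → ℝ) (t x : ℝ) : ℝ :=
  ∑' n, mcoef L K h₀ H n t * eig L n x

/-- measurable and bounded by `C` data -/
def MB (C : ℝ) (h₀ : ℝ → ℝ) (H : ℝ → ℝ → ℝ) : Prop :=
  Measurable h₀ ∧ Measurable (fun z : ℝ × ℝ => H z.1 z.2) ∧ (∀ x, |h₀ x| ≤ C) ∧
    ∀ t x, |H t x| ≤ C

/-! ## The cooperative form: `p = y₁`, `q = 1 - y₂` -/

/-- first reaction term -/
def F₁ (a p q : ℝ) : ℝ := p * (1 - a - p + a * q)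

/-- second reaction term -/
def F₂ (b p q : ℝ) : ℝ := (1 - q) * (b * p - q)

/-- solution of the cooperative system with zero boundary data and values in `[0,1]` -/
structure Coop (a b L : ℝ) (p₀ q₀ : ℝ → ℝ) (p q : ℝ → ℝ → ℝ) : Prop where
  contp : ContinuousOn (fun z : ℝ × ℝ => p z.1 z.2) (Ioi 0 ×ˢ Icc 0 L)
  contq : ContinuousOn (fun z : ℝ × ℝ => q z.1 z.2) (Ioi 0 ×ˢ Icc 0 L)
  mem : ∀ t, 0 < t → ∀ x ∈ Icc 0 L, p t x ∈ Icc (0 : ℝ) 1 ∧ q t x ∈ Icc (0 : ℝ) 1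
  bdry : ∀ t, 0 < t → p t 0 = 0 ∧ p t L = 0 ∧ q t 0 = 0 ∧ q t L = 0
  weakp : WeakHeat L p₀ (fun _ => 0) (fun _ => 0) (fun t x => F₁ a (p t x) (q t x)) p
  weakq : WeakHeat L q₀ (fun _ => 0) (fun _ => 0) (fun t x => F₂ b (p t x) (q t x)) q

/-! ## Stationary solutions -/

/-- classical stationary solution of the cooperative system on `[0, L]` with values in
`[0,1]` (differentiable in a neighbourhood of each point of `[0, L]`) -/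
def Stat (a b L : ℝ) (p q : ℝ → ℝ) : Prop :=
  (∀ x ∈ Icc 0 L, p x ∈ Icc (0 : ℝ) 1 ∧ q x ∈ Icc (0 : ℝ) 1) ∧
  ∃ p' q' : ℝ → ℝ, ∀ x ∈ Icc 0 L, HasDerivAt p (p' x) x ∧ HasDerivAt q (q' x) x ∧
    HasDerivAt p' (-F₁ a (p x) (q x)) x ∧ HasDerivAt q' (-F₂ b (p x) (q x)) x

/-- existence of a nontrivial stationary solution with zero boundary values -/
def Bar (a b L : ℝ) : Prop :=
  ∃ p q : ℝ → ℝ, Stat a b L p q ∧ p 0 = 0 ∧ q 0 = 0 ∧ p L = 0 ∧ q L = 0 ∧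
    ∃ x ∈ Icc 0 L, p x ≠ 0

/-- explicit solution of `-u'' + K u = H`, `u(0) = A`, `u(ℓ) = B`; here `K = k²` -/
noncomputable def TK (k ℓ A B : ℝ) (H : ℝ → ℝ) (x : ℝ) : ℝ :=
  -(1 / k) * (∫ s in (0 : ℝ)..x, Real.sinh (k * (x - s)) * H s) +
    (B + (1 / k) * ∫ s in (0 : ℝ)..ℓ, Real.sinh (k * (ℓ - s)) * H s) *
      (Real.sinh (k * x) / Real.sinh (k * ℓ)) +
    A * (Real.sinh (k * (ℓ - x)) / Real.sinh (k * ℓ))

/-- a subsolution of the stationary cooperative system on `[0, ℓ]`; the derivatives `D₁, D₂`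
may jump upwards -/
structure IsSub (a b ℓ : ℝ) (w₁ w₂ D₁ D₂ : ℝ → ℝ) : Prop where
  cont₁ : ContinuousOn w₁ (Icc 0 ℓ)
  cont₂ : ContinuousOn w₂ (Icc 0 ℓ)
  int₁ : IntervalIntegrable D₁ volume 0 ℓ
  int₂ : IntervalIntegrable D₂ volume 0 ℓ
  mem : ∀ x ∈ Icc 0 ℓ, w₁ x ∈ Icc (0 : ℝ) 1 ∧ w₂ x ∈ Icc (0 : ℝ) 1
  d₁ : ∀ x y, 0 ≤ x → x ≤ y → y ≤ ℓ → w₁ y - w₁ x = ∫ s in x..y, D₁ s
  d₂ : ∀ x y, 0 ≤ x → x ≤ y → y ≤ ℓ → w₂ y - w₂ x = ∫ s in x..y, D₂ s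
  e₁ : ∀ x y, 0 ≤ x → x ≤ y → y ≤ ℓ → -(∫ s in x..y, F₁ a (w₁ s) (w₂ s)) ≤ D₁ y - D₁ x
  e₂ : ∀ x y, 0 ≤ x → x ≤ y → y ≤ ℓ → -(∫ s in x..y, F₂ b (w₁ s) (w₂ s)) ≤ D₂ y - D₂ x

/-- the iteration: `z ↦ T_K[F(z) + K z]`, started at `(1, 1)`; outside `[0, ℓ]` the source is
extended by constants -/
noncomputable def iter (a b k ℓ A₁ B₁ A₂ B₂ : ℝ) : ℕ → (ℝ → ℝ) × (ℝ → ℝ)
  | 0 => (fun _ => 1, fun _ => 1)
  | n + 1 =>
    (TK k ℓ A₁ B₁ (fun x => F₁ a ((iter a b k ℓ A₁ B₁ A₂ B₂ n).1 (max 0 (min x ℓ)))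
        ((iter a b k ℓ A₁ B₁ A₂ B₂ n).2 (max 0 (min x ℓ))) +
        k ^ 2 * (iter a b k ℓ A₁ B₁ A₂ B₂ n).1 (max 0 (min x ℓ))),
     TK k ℓ A₂ B₂ (fun x => F₂ b ((iter a b k ℓ A₁ B₁ A₂ B₂ n).1 (max 0 (min x ℓ)))
        ((iter a b k ℓ A₁ B₁ A₂ B₂ n).2 (max 0 (min x ℓ))) +
        k ^ 2 * (iter a b k ℓ A₁ B₁ A₂ B₂ n).2 (max 0 (min x ℓ))))

end Pool.Agent.H62.LV
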