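import Mathlib

/-!
Boundary control of the competitive Lotka-Volterra reaction-diffusion system on an interval:
the definitions used in the statement of the result.
-/

namespace Pool.Agent.H62.LV

open MeasureTheory Set Filter Topology

/-- The weak (transposition) form of `w_t - w_xx = h` on `(0, L)` for `t > 0`, with Dirichlet
boundary data `w = l` at `x = 0`, `w = r` at `x = L`, and initial datum `w₀`: for every `C²`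
function `φ` vanishing at `0` and `L` and every `t > 0`,
`∫ w(t) φ = ∫ w₀ φ + ∫₀ᵗ (∫ (w φ'' + h φ) + l φ'(0) - r φ'(L)) ds`. -/
def WeakHeat (L : ℝ) (w₀ l r : ℝ → ℝ) (h w : ℝ → ℝ → ℝ) : Prop :=
  ∀ φ : ℝ → ℝ, ContDiff ℝ 2 φ → φ 0 = 0 → φ L = 0 → ∀ t : ℝ, 0 < t →
    ∫ x in (0 : ℝ)..L, w t x * φ x =
      (∫ x in (0 : ℝ)..L, w₀ x * φ x) +
        ∫ s in (0 : ℝ)..t, ((∫ x in (0 : ℝ)..L, (w s x * deriv (deriv φ) x + h s x * φ x)) +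
          l s * deriv φ 0 - r s * deriv φ L)

/-- An initial datum: continuous on the open interval `(0, L)`, with values in `[0, 1]`. -/
def IsDatum (L : ℝ) (y₀ : ℝ → ℝ) : Prop :=
  ContinuousOn y₀ (Ioo 0 L) ∧ ∀ x ∈ Ioo 0 L, y₀ x ∈ Icc (0 : ℝ) 1

/-- An admissible boundary control: `u false` acts at `x = 0` and `u true` at `x = L`; both are
measurable functions of time with values in `[0, 1]`. -/
def IsControl (u : Bool → ℝ → ℝ) : Prop :=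
  ∀ e, Measurable (u e) ∧ ∀ t, 0 < t → u e t ∈ Icc (0 : ℝ) 1

/-- `(y₁, y₂)` is a solution on `(0, L)`, for `t > 0`, of
`∂ₜ y₁ - ∂ₓₓ y₁ = y₁ (1 - y₁ - a y₂)`, `∂ₜ y₂ - ∂ₓₓ y₂ = y₂ (1 - b y₁ - y₂)`
with initial data `y₁₀, y₂₀` and Dirichlet boundary controls `u₁, u₂`: the functions are
continuous on `(0, ∞) × (0, L)`, bounded on bounded time intervals, equal to the controls at the
end points, and satisfy the two equations in the weak form. -/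
structure IsSolution (a b L : ℝ) (y₁₀ y₂₀ : ℝ → ℝ) (u₁ u₂ : Bool → ℝ → ℝ)
    (y₁ y₂ : ℝ → ℝ → ℝ) : Prop where
  cont₁ : ContinuousOn (fun z : ℝ × ℝ => y₁ z.1 z.2) (Ioi 0 ×ˢ Ioo 0 L)
  cont₂ : ContinuousOn (fun z : ℝ × ℝ => y₂ z.1 z.2) (Ioi 0 ×ˢ Ioo 0 L)
  bdd : ∀ T : ℝ, ∃ C : ℝ, ∀ t ∈ Ioc 0 T, ∀ x ∈ Icc 0 L, |y₁ t x| ≤ C ∧ |y₂ t x| ≤ C
  bdry₁ : ∀ t, 0 < t → y₁ t 0 = u₁ false t ∧ y₁ t L = u₁ true t
  bdry₂ : ∀ t, 0 < t → y₂ t 0 = u₂ false t ∧ y₂ t L = u₂ true t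
  weak₁ : WeakHeat L y₁₀ (u₁ false) (u₁ true)
    (fun t x => y₁ t x * (1 - y₁ t x - a * y₂ t x)) y₁
  weak₂ : WeakHeat L y₂₀ (u₂ false) (u₂ true)
    (fun t x => y₂ t x * (1 - b * y₁ t x - y₂ t x)) y₂

/-- Asymptotic controllability from the initial data `(y₁₀, y₂₀)` to the constant state
`(c₁, c₂)`: for some admissible controls, a solution converges to it uniformly on `[0, L]`. -/
def AsympControllable (a b L : ℝ) (y₁₀ y₂₀ : ℝ → ℝ) (c₁ c₂ : ℝ) : Prop :=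
  ∃ u₁ u₂ : Bool → ℝ → ℝ, IsControl u₁ ∧ IsControl u₂ ∧
    ∃ y₁ y₂ : ℝ → ℝ → ℝ, IsSolution a b L y₁₀ y₂₀ u₁ u₂ y₁ y₂ ∧
      ∀ ε > 0, ∃ T > 0, ∀ t ≥ T, ∀ x ∈ Icc 0 L, |y₁ t x - c₁| < ε ∧ |y₂ t x - c₂| < ε

/-- A barrier on `(0, L)`: a stationary solution with values in `[0, 1]`, boundary values
`(0, 1)`, not identically equal to `(0, 1)`. -/
structure IsBarrier (a b L : ℝ) (θ₁ θ₂ : ℝ → ℝ) : Prop where
  cont : ContinuousOn θ₁ (Icc 0 L) ∧ ContinuousOn θ₂ (Icc 0 L)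
  diff : ∀ x ∈ Ioo 0 L, DifferentiableAt ℝ θ₁ x ∧ DifferentiableAt ℝ θ₂ x
  eq₁ : ∀ x ∈ Ioo 0 L, HasDerivAt (deriv θ₁) (-(θ₁ x * (1 - θ₁ x - a * θ₂ x))) x
  eq₂ : ∀ x ∈ Ioo 0 L, HasDerivAt (deriv θ₂) (-(θ₂ x * (1 - b * θ₁ x - θ₂ x))) x
  mem : ∀ x ∈ Icc 0 L, θ₁ x ∈ Icc (0 : ℝ) 1 ∧ θ₂ x ∈ Icc (0 : ℝ) 1
  left : θ₁ 0 = 0 ∧ θ₂ 0 = 1
  right : θ₁ L = 0 ∧ θ₂ L = 1
  nontrivial : ∃ x ∈ Icc 0 L, (θ₁ x, θ₂ x) ≠ (0, 1)

end Pool.Agent.H62.LV
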