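import Pool.Agent.H62.LV.Base

/-!
Integrability of slices, linearity of the weak formulation, stationary solutions.
-/

namespace Pool.Agent.H62.LV

open MeasureTheory Set Filter Topology

theorem Reg.slice {L : ℝ} {w : ℝ → ℝ → ℝ} (hw : Reg L w) (hL : 0 < L) {t : ℝ} (ht : 0 < t)
    {g : ℝ → ℝ} (hg : Continuous g) :
    IntervalIntegrable (fun x => w t x * g x) volume 0 L := by
  obtain ⟨C, hC⟩ := hw.bdd t
  obtain ⟨G, hG⟩ := isCompact_Icc.exists_bound_of_continuousOn (s := Icc 0 L) hg.continuousOn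
  rw [intervalIntegrable_iff_integrableOn_Ioo_of_le hL.le]
  have hc : ContinuousOn (fun x => w t x * g x) (Ioo 0 L) := by
    apply ContinuousOn.mul _ hg.continuousOn
    exact hw.cont.comp (f := fun x : ℝ => ((t, x) : ℝ × ℝ)) (by fun_prop)
      (fun x hx => ⟨ht, hx⟩)
  refine IntegrableOn.of_bound (by simp)
    (hc.aestronglyMeasurable measurableSet_Ioo) (C * G) ?_
  refine (ae_restrict_mem measurableSet_Ioo).mono (fun x hx => ?_)
  rw [norm_mul]
  have h1 := hC t ⟨ht, le_refl t⟩ x hx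
  have h2 := hG x ⟨hx.1.le, hx.2.le⟩
  exact mul_le_mul h1 h2 (norm_nonneg _) ((abs_nonneg _).trans h1)

theorem Reg.slice' {L : ℝ} {w : ℝ → ℝ → ℝ} (hw : Reg L w) (hL : 0 < L) {t : ℝ} (ht : 0 < t) :
    IntervalIntegrable (w t) volume 0 L := by
  have := hw.slice hL ht (g := fun _ => (1 : ℝ)) continuous_const
  simpa using this

theorem Reg.continuousOn_integral {L : ℝ} {w : ℝ → ℝ → ℝ} (hw : Reg L w) (hL : 0 < L)
    {g : ℝ → ℝ} (hg : Continuous g) :
    ContinuousOn (fun s => ∫ x in (0 : ℝ)..L, w s x * g x) (Ioi 0) := by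
  intro s₀ hs₀
  have hs₀' : (0 : ℝ) < s₀ := hs₀
  apply ContinuousAt.continuousWithinAt
  obtain ⟨C, hC⟩ := hw.bdd (s₀ + 1)
  obtain ⟨G, hG⟩ := isCompact_Icc.exists_bound_of_continuousOn (s := Icc 0 L) hg.continuousOn
  have hnear : ∀ᶠ s in 𝓝 s₀, s ∈ Ioo 0 (s₀ + 1) := Ioo_mem_nhds hs₀' (by linarith)
  have hne : ∀ᵐ x ∂(volume : Measure ℝ), x ≠ L := by
    have : (volume : Measure ℝ) {L} = 0 := by simp
    exact (measure_eq_zero_iff_ae_notMem.mp this).mono (fun x hx => by simpa using hx)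
  refine intervalIntegral.continuousAt_of_dominated_interval (bound := fun _ => C * G) ?_ ?_ ?_ ?_
  · filter_upwards [hnear] with s hs
    exact (hw.slice hL hs.1 hg).def'.aestronglyMeasurable
  · filter_upwards [hnear] with s hs
    filter_upwards [hne] with x hx hx'
    rw [uIoc_of_le hL.le] at hx'
    have hxI : x ∈ Ioo 0 L := ⟨hx'.1, lt_of_le_of_ne hx'.2 hx⟩
    rw [norm_mul]
    have h1 := hC s ⟨hs.1, hs.2.le⟩ x hxI
    have h2 := hG x ⟨hxI.1.le, hxI.2.le⟩
    exact mul_le_mul h1 h2 (norm_nonneg _) ((abs_nonneg _).trans h1)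
  · exact intervalIntegrable_const
  · filter_upwards [hne] with x hx hx'
    rw [uIoc_of_le hL.le] at hx'
    have hxI : x ∈ Ioo 0 L := ⟨hx'.1, lt_of_le_of_ne hx'.2 hx⟩
    apply ContinuousAt.mul _ continuousAt_const
    have hc := hw.cont.continuousAt (x := (s₀, x))
      ((isOpen_Ioi.prod isOpen_Ioo).mem_nhds ⟨hs₀, hxI⟩)
    exact ContinuousAt.comp (f := fun s : ℝ => ((s, x) : ℝ × ℝ)) hc (by fun_prop)

theorem Reg.time_integrable {L : ℝ} {w : ℝ → ℝ → ℝ} (hw : Reg L w) (hL : 0 < L)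
    {g : ℝ → ℝ} (hg : Continuous g) {T : ℝ} (hT : 0 < T) :
    IntervalIntegrable (fun s => ∫ x in (0 : ℝ)..L, w s x * g x) volume 0 T := by
  obtain ⟨C, hC⟩ := hw.bdd T
  obtain ⟨G, hG⟩ := isCompact_Icc.exists_bound_of_continuousOn (s := Icc 0 L) hg.continuousOn
  rw [intervalIntegrable_iff_integrableOn_Ioc_of_le hT.le]
  refine IntegrableOn.of_bound (by simp)
    (((hw.continuousOn_integral hL hg).mono (fun s hs => hs.1)).aestronglyMeasurable
      measurableSet_Ioc) (C * G * |L - 0|) ?_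
  refine (ae_restrict_mem measurableSet_Ioc).mono (fun s hs => ?_)
  have hne : ∀ᵐ x ∂(volume : Measure ℝ), x ≠ L := by
    have : (volume : Measure ℝ) {L} = 0 := by simp
    exact (measure_eq_zero_iff_ae_notMem.mp this).mono (fun x hx => by simpa using hx)
  apply intervalIntegral.norm_integral_le_of_norm_le_const_ae
  filter_upwards [hne] with x hx hx'
  rw [uIoc_of_le hL.le] at hx'
  have hxI : x ∈ Ioo 0 L := ⟨hx'.1, lt_of_le_of_ne hx'.2 hx⟩
  rw [norm_mul]
  have h1 := hC s hs x hxI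
  have h2 := hG x ⟨hxI.1.le, hxI.2.le⟩
  exact mul_le_mul h1 h2 (norm_nonneg _) ((abs_nonneg _).trans h1)

theorem BData.integrable {l : ℝ → ℝ} (hl : BData l) {T : ℝ} (hT : 0 < T) :
    IntervalIntegrable l volume 0 T := by
  obtain ⟨hm, C, hC⟩ := hl
  rw [intervalIntegrable_iff_integrableOn_Ioc_of_le hT.le]
  refine IntegrableOn.of_bound (by simp) hm.aestronglyMeasurable C ?_
  exact (ae_restrict_mem measurableSet_Ioc).mono (fun s hs => hC s hs.1)

theorem Reg.lin {L : ℝ} {w w' : ℝ → ℝ → ℝ} (hw : Reg L w) (hw' : Reg L w') (α β : ℝ) :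
    Reg L (fun t x => α * w t x + β * w' t x) := by
  refine ⟨(hw.cont.const_smul α).add (hw'.cont.const_smul β), fun T => ?_⟩
  obtain ⟨C, hC⟩ := hw.bdd T
  obtain ⟨C', hC'⟩ := hw'.bdd T
  refine ⟨|α| * C + |β| * C', fun t ht x hx => ?_⟩
  refine (abs_add_le _ _).trans ?_
  rw [abs_mul, abs_mul]
  exact add_le_add (mul_le_mul_of_nonneg_left (hC t ht x hx) (abs_nonneg _))
    (mul_le_mul_of_nonneg_left (hC' t ht x hx) (abs_nonneg _))

theorem BData.lin {l l' : ℝ → ℝ} (hl : BData l) (hl' : BData l') (α β : ℝ) :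
    BData (fun t => α * l t + β * l' t) := by
  obtain ⟨hm, C, hC⟩ := hl
  obtain ⟨hm', C', hC'⟩ := hl'
  refine ⟨(hm.const_mul α).add (hm'.const_mul β), |α| * C + |β| * C', fun t ht => ?_⟩
  refine (abs_add_le _ _).trans ?_
  rw [abs_mul, abs_mul]
  exact add_le_add (mul_le_mul_of_nonneg_left (hC t ht) (abs_nonneg _))
    (mul_le_mul_of_nonneg_left (hC' t ht) (abs_nonneg _))

theorem bdata_const (c : ℝ) : BData (fun _ => c) :=
  ⟨measurable_const, |c|, fun _ _ => le_refl _⟩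

theorem cont_deriv2 {φ : ℝ → ℝ} (hφ : ContDiff ℝ 2 φ) :
    Continuous (deriv φ) ∧ Continuous (deriv (deriv φ)) ∧
      (∀ x, HasDerivAt φ (deriv φ x) x) ∧ ∀ x, HasDerivAt (deriv φ) (deriv (deriv φ) x) x := by
  have h1 : ContDiff ℝ (1 + 1) φ := by simpa [one_add_one_eq_two] using hφ
  have h2 := contDiff_succ_iff_deriv.mp h1
  have h3 : ContDiff ℝ (0 + 1) (deriv φ) := by simpa using h2.2.2
  have h4 := contDiff_succ_iff_deriv.mp h3
  exact ⟨h2.2.2.continuous, h4.2.2.continuous, fun x => (h2.1 x).hasDerivAt,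
    fun x => (h4.1 x).hasDerivAt⟩

theorem WeakHeat.lin {L : ℝ} (hL : 0 < L) {w₀ l r w₀' l' r' : ℝ → ℝ}
    {h w h' w' : ℝ → ℝ → ℝ} (hw : Reg L w) (hh : Reg L h) (hw' : Reg L w') (hh' : Reg L h')
    (i₀ : IntervalIntegrable w₀ volume 0 L) (i₀' : IntervalIntegrable w₀' volume 0 L)
    (hl : BData l) (hr : BData r) (hl' : BData l') (hr' : BData r')
    (H : WeakHeat L w₀ l r h w) (H' : WeakHeat L w₀' l' r' h' w') (α β : ℝ) :
    WeakHeat L (fun x => α * w₀ x + β * w₀' x) (fun t => α * l t + β * l' t)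
      (fun t => α * r t + β * r' t) (fun t x => α * h t x + β * h' t x)
      (fun t x => α * w t x + β * w' t x) := by
  intro φ hφ h0 h1 t ht
  obtain ⟨c1, c2, d1, d2⟩ := cont_deriv2 hφ
  have c0 : Continuous φ := hφ.continuous
  have e := H φ hφ h0 h1 t ht
  have e' := H' φ hφ h0 h1 t ht
  have i1 := hw.slice hL ht c0
  have i2 := hw'.slice hL ht c0
  have j1 : IntervalIntegrable (fun x => w₀ x * φ x) volume 0 L :=
    i₀.mul_continuousOn c0.continuousOn
  have j2 : IntervalIntegrable (fun x => w₀' x * φ x) volume 0 L :=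
    i₀'.mul_continuousOn c0.continuousOn
  have k : ∀ {u g : ℝ → ℝ → ℝ} {m n : ℝ → ℝ}, Reg L u → Reg L g → BData m → BData n →
      IntervalIntegrable (fun s => (∫ x in (0 : ℝ)..L, (u s x * deriv (deriv φ) x +
        g s x * φ x)) + m s * deriv φ 0 - n s * deriv φ L) volume 0 t := by
    intro u g m n hu hg hm hn
    have a1 := hu.time_integrable hL c2 ht
    have a2 := hg.time_integrable hL c0 ht
    have a3 : IntervalIntegrable (fun s => ∫ x in (0 : ℝ)..L, (u s x * deriv (deriv φ) x +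
        g s x * φ x)) volume 0 t := by
      refine (a1.add a2).congr ?_
      rw [uIoc_of_le ht.le]
      refine fun s hs => ?_
      simp only [Pi.add_apply]
      rw [intervalIntegral.integral_add (hu.slice hL hs.1 c2) (hg.slice hL hs.1 c0)]
    exact (a3.add ((hm.integrable ht).mul_const _)).sub ((hn.integrable ht).mul_const _)
  have k1 := k hw hh hl hr
  have k2 := k hw' hh' hl' hr'
  have s1 : ∫ x in (0 : ℝ)..L, (α * w t x + β * w' t x) * φ x =
      α * (∫ x in (0 : ℝ)..L, w t x * φ x) + β * ∫ x in (0 : ℝ)..L, w' t x * φ x := by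
    rw [← intervalIntegral.integral_const_mul, ← intervalIntegral.integral_const_mul,
      ← intervalIntegral.integral_add (i1.const_mul α) (i2.const_mul β)]
    congr 1; ext x; ring
  have s2 : ∫ x in (0 : ℝ)..L, (α * w₀ x + β * w₀' x) * φ x =
      α * (∫ x in (0 : ℝ)..L, w₀ x * φ x) + β * ∫ x in (0 : ℝ)..L, w₀' x * φ x := by
    rw [← intervalIntegral.integral_const_mul, ← intervalIntegral.integral_const_mul,
      ← intervalIntegral.integral_add (j1.const_mul α) (j2.const_mul β)]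
    congr 1; ext x; ring
  rw [s1, s2, e, e']
  have s3 : ∫ s in (0 : ℝ)..t, ((∫ x in (0 : ℝ)..L, ((α * w s x + β * w' s x) *
        deriv (deriv φ) x + (α * h s x + β * h' s x) * φ x)) +
        (α * l s + β * l' s) * deriv φ 0 - (α * r s + β * r' s) * deriv φ L) =
      α * (∫ s in (0 : ℝ)..t, ((∫ x in (0 : ℝ)..L, (w s x * deriv (deriv φ) x +
        h s x * φ x)) + l s * deriv φ 0 - r s * deriv φ L)) +
      β * (∫ s in (0 : ℝ)..t, ((∫ x in (0 : ℝ)..L, (w' s x * deriv (deriv φ) x +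
        h' s x * φ x)) + l' s * deriv φ 0 - r' s * deriv φ L)) := by
    rw [← intervalIntegral.integral_const_mul, ← intervalIntegral.integral_const_mul,
      ← intervalIntegral.integral_add (k1.const_mul α) (k2.const_mul β)]
    apply intervalIntegral.integral_congr_ae
    refine Filter.Eventually.of_forall (fun s hs => ?_)
    rw [uIoc_of_le ht.le] at hs
    have q1 := (hw.slice hL hs.1 c2).add (hh.slice hL hs.1 c0)
    have q2 := (hw'.slice hL hs.1 c2).add (hh'.slice hL hs.1 c0)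
    have : ∫ x in (0 : ℝ)..L, ((α * w s x + β * w' s x) *
        deriv (deriv φ) x + (α * h s x + β * h' s x) * φ x) =
        α * (∫ x in (0 : ℝ)..L, (w s x * deriv (deriv φ) x + h s x * φ x)) +
        β * (∫ x in (0 : ℝ)..L, (w' s x * deriv (deriv φ) x + h' s x * φ x)) := by
      rw [← intervalIntegral.integral_const_mul, ← intervalIntegral.integral_const_mul,
        ← intervalIntegral.integral_add (q1.const_mul α) (q2.const_mul β)]
      congr 1; ext x; ring
    rw [this]; ring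
  rw [s3]; ring

/-- the constant function `1` -/
theorem weak_one {L : ℝ} (hL : 0 < L) :
    WeakHeat L (fun _ => 1) (fun _ => 1) (fun _ => 1) (fun _ _ => 0) (fun _ _ => 1) := by
  intro φ hφ h0 h1 t ht
  obtain ⟨c1, c2, d1, d2⟩ := cont_deriv2 hφ
  have : ∫ x in (0 : ℝ)..L, (1 * deriv (deriv φ) x + 0 * φ x) = deriv φ L - deriv φ 0 := by
    rw [← intervalIntegral.integral_eq_sub_of_hasDerivAt (f := deriv φ)
      (f' := deriv (deriv φ)) (fun x _ => d2 x) (c2.intervalIntegrable _ _)]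
    congr 1; ext x; ring
  simp only [this]
  have h2 : ∀ s : ℝ, deriv φ L - deriv φ 0 + 1 * deriv φ 0 - 1 * deriv φ L = 0 := by
    intro s; ring
  simp [h2]

theorem reg_one (L : ℝ) : Reg L (fun _ _ => 1) :=
  ⟨continuousOn_const, fun _ => ⟨1, fun _ _ _ _ => by simp⟩⟩

theorem reg_zero (L : ℝ) : Reg L (fun _ _ => 0) :=
  ⟨continuousOn_const, fun _ => ⟨0, fun _ _ _ _ => by simp⟩⟩

/-- integration by parts for a classical solution of `-p'' = F` with zero boundary values -/
theorem parts_twice {L : ℝ} (hL : 0 < L) {p p' F : ℝ → ℝ}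
    (hd : ∀ x ∈ Icc 0 L, HasDerivAt p (p' x) x ∧ HasDerivAt p' (-F x) x)
    (hF : ContinuousOn F (Icc 0 L)) (hp0 : p 0 = 0) (hpL : p L = 0) {φ : ℝ → ℝ}
    (hφ : ContDiff ℝ 2 φ) (h0 : φ 0 = 0) (h1 : φ L = 0) :
    ∫ x in (0 : ℝ)..L, (p x * deriv (deriv φ) x + F x * φ x) = 0 := by
  obtain ⟨c1, c2, d1, d2⟩ := cont_deriv2 hφ
  have cp : ContinuousOn p (Icc 0 L) := fun x hx => (hd x hx).1.continuousAt.continuousWithinAt
  have cp' : ContinuousOn p' (Icc 0 L) := fun x hx =>
    (hd x hx).2.continuousAt.continuousWithinAt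
  have hG : ∀ x ∈ uIcc 0 L, HasDerivAt (fun x => p x * deriv φ x - p' x * φ x)
      (p x * deriv (deriv φ) x + F x * φ x) x := by
    intro x hx
    rw [uIcc_of_le hL.le] at hx
    have e1 := (hd x hx).1.mul (d2 x)
    have e2 := (hd x hx).2.mul (d1 x)
    refine (e1.sub e2).congr_deriv ?_
    ring
  rw [intervalIntegral.integral_eq_sub_of_hasDerivAt hG]
  · simp [hp0, hpL, h0, h1]
  · apply ContinuousOn.intervalIntegrable
    rw [uIcc_of_le hL.le]
    exact (cp.mul c2.continuousOn).add (hF.mul hφ.continuous.continuousOn)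

/-- a classical stationary solution is a weak solution -/
theorem weak_of_stationary {L : ℝ} (hL : 0 < L) {p p' F : ℝ → ℝ}
    (hd : ∀ x ∈ Icc 0 L, HasDerivAt p (p' x) x ∧ HasDerivAt p' (-F x) x)
    (hF : ContinuousOn F (Icc 0 L)) (hp0 : p 0 = 0) (hpL : p L = 0) :
    WeakHeat L p (fun _ => 0) (fun _ => 0) (fun _ x => F x) (fun _ x => p x) := by
  intro φ hφ h0 h1 t ht
  simp [parts_twice hL hd hF hp0 hpL hφ h0 h1]

end Pool.Agent.H62.LV
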