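import Pool.Agent.Helper18.LV.P10
import Pool.Agent.Helper85.LV.P12

namespace Pool.Agent.H62.LV

open MeasureTheory Set Filter Topology

/-! ## P13: existence of a barrier for some length -/

/-- even reflection of a scalar subsolution about the right end -/
theorem refl_scalar {ℓ : ℝ} (hℓ : 0 < ℓ) {w D f : ℝ → ℝ}
    (hD : IntervalIntegrable D volume 0 ℓ) (hf : IntervalIntegrable f volume 0 ℓ)
    (d : ∀ x y, 0 ≤ x → x ≤ y → y ≤ ℓ → w y - w x = ∫ s in x..y, D s)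
    (e : ∀ x y, 0 ≤ x → x ≤ y → y ≤ ℓ → -(∫ s in x..y, f s) ≤ D y - D x)
    (hend : D ℓ ≤ 0) :
    IntervalIntegrable (fun x => if x ≤ ℓ then D x else -D (2 * ℓ - x)) volume 0 (2 * ℓ) ∧
    (∀ x y, 0 ≤ x → x ≤ y → y ≤ 2 * ℓ → w (min y (2 * ℓ - y)) - w (min x (2 * ℓ - x)) =
      ∫ s in x..y, (if s ≤ ℓ then D s else -D (2 * ℓ - s))) ∧
    (∀ x y, 0 ≤ x → x ≤ y → y ≤ 2 * ℓ → -(∫ s in x..y, f (min s (2 * ℓ - s))) ≤
      (if y ≤ ℓ then D y else -D (2 * ℓ - y)) - (if x ≤ ℓ then D x else -D (2 * ℓ - x))) := by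
  set D' : ℝ → ℝ := fun x => if x ≤ ℓ then D x else -D (2 * ℓ - x) with hD'
  set m : ℝ → ℝ := fun x => min x (2 * ℓ - x) with hm
  have mlow : ∀ x, x ≤ ℓ → m x = x := fun x hx => min_eq_left (by linarith)
  have mhigh : ∀ x, ℓ ≤ x → m x = 2 * ℓ - x := fun x hx => min_eq_right (by linarith)
  -- integrability of the reflected functions
  have refl_int : ∀ g : ℝ → ℝ, IntervalIntegrable g volume 0 ℓ →
      IntervalIntegrable (fun x => g (2 * ℓ - x)) volume ℓ (2 * ℓ) := by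
    intro g hg
    have := hg.comp_sub_left (2 * ℓ)
    have h2 : 2 * ℓ - ℓ = ℓ := by ring
    rw [sub_zero, h2] at this
    exact this.symm
  have iD1 : IntervalIntegrable D' volume 0 ℓ := by
    refine hD.congr ?_
    intro s hs
    rw [uIoc_of_le hℓ.le] at hs
    simp only [hD', if_pos hs.2]
  have iD2 : IntervalIntegrable D' volume ℓ (2 * ℓ) := by
    refine (refl_int D hD).neg.congr ?_
    intro s hs
    rw [uIoc_of_le (by linarith)] at hs
    simp only [hD', if_neg (not_le.mpr hs.1), Pi.neg_apply]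
  have iD := iD1.trans iD2
  have if1 : IntervalIntegrable (fun s => f (m s)) volume 0 ℓ := by
    refine hf.congr ?_
    intro s hs
    rw [uIoc_of_le hℓ.le] at hs
    simp only [mlow s hs.2]
  have if2 : IntervalIntegrable (fun s => f (m s)) volume ℓ (2 * ℓ) := by
    refine (refl_int f hf).congr ?_
    intro s hs
    rw [uIoc_of_le (by linarith)] at hs
    simp only [mhigh s hs.1.le]
  have iff := if1.trans if2
  have sub : ∀ g : ℝ → ℝ, IntervalIntegrable g volume 0 (2 * ℓ) → ∀ x y, 0 ≤ x → x ≤ y →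
      y ≤ 2 * ℓ → IntervalIntegrable g volume x y := by
    intro g hg x y hx hxy hy
    refine hg.mono_set ?_
    rw [uIcc_of_le hxy, uIcc_of_le (by linarith)]
    exact Icc_subset_Icc hx hy
  -- the relation for the function
  have dlow : ∀ x y, 0 ≤ x → x ≤ y → y ≤ ℓ → w (m y) - w (m x) = ∫ s in x..y, D' s := by
    intro x y hx hxy hy
    rw [mlow x (hxy.trans hy), mlow y hy, d x y hx hxy hy]
    apply intervalIntegral.integral_congr
    intro s hs
    rw [uIcc_of_le hxy] at hs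
    simp only [hD', if_pos (hs.2.trans hy)]
  have dhigh : ∀ x y, ℓ ≤ x → x ≤ y → y ≤ 2 * ℓ → w (m y) - w (m x) = ∫ s in x..y, D' s := by
    intro x y hx hxy hy
    rw [mhigh x hx, mhigh y (hx.trans hxy)]
    have h1 : ∫ s in x..y, D' s = ∫ s in x..y, -D (2 * ℓ - s) := by
      apply intervalIntegral.integral_congr_ae
      refine Filter.Eventually.of_forall (fun s hs => ?_)
      rw [uIoc_of_le hxy] at hs
      simp only [hD', if_neg (not_le.mpr (lt_of_le_of_lt hx hs.1))]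
    rw [h1, intervalIntegral.integral_neg,
      intervalIntegral.integral_comp_sub_left (fun s => D s) (2 * ℓ)]
    have := d (2 * ℓ - y) (2 * ℓ - x) (by linarith) (by linarith) (by linarith)
    linarith
  have elow : ∀ x y, 0 ≤ x → x ≤ y → y ≤ ℓ → -(∫ s in x..y, f (m s)) ≤ D' y - D' x := by
    intro x y hx hxy hy
    have h1 : ∫ s in x..y, f (m s) = ∫ s in x..y, f s := by
      apply intervalIntegral.integral_congr
      intro s hs
      rw [uIcc_of_le hxy] at hs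
      simp only [mlow s (hs.2.trans hy)]
    rw [h1]
    simp only [hD', if_pos hy, if_pos (hxy.trans hy)]
    exact e x y hx hxy hy
  have ehigh : ∀ x y, ℓ ≤ x → x ≤ y → y ≤ 2 * ℓ → -(∫ s in x..y, f (m s)) ≤ D' y - D' x := by
    intro x y hx hxy hy
    have h1 : ∫ s in x..y, f (m s) = ∫ s in (2 * ℓ - y)..(2 * ℓ - x), f s := by
      rw [← intervalIntegral.integral_comp_sub_left (fun s => f s) (2 * ℓ)]
      apply intervalIntegral.integral_congr
      intro s hs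
      rw [uIcc_of_le hxy] at hs
      simp only [mhigh s (hx.trans hs.1)]
    rcases eq_or_lt_of_le hxy with h | h
    · rw [← h]; simp
    · have := e (2 * ℓ - y) (2 * ℓ - x) (by linarith) (by linarith) (by linarith)
      rw [h1]
      have hy' : ¬ y ≤ ℓ := not_le.mpr (lt_of_le_of_lt hx h)
      rcases eq_or_lt_of_le hx with h' | h'
      · rw [← h'] at this ⊢
        have h2 : 2 * ℓ - ℓ = ℓ := by ring
        simp only [hD', if_neg hy', if_pos (le_refl ℓ)]
        rw [h2] at this ⊢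
        linarith
      · simp only [hD', if_neg hy', if_neg (not_le.mpr h')]
        linarith
  refine ⟨iD, ?_, ?_⟩
  · intro x y hx hxy hy
    rcases le_total y ℓ with h | h
    · exact dlow x y hx hxy h
    · rcases le_total ℓ x with h' | h'
      · exact dhigh x y h' hxy hy
      · have e1 := dlow x ℓ hx h' (le_refl _)
        have e2 := dhigh ℓ y (le_refl _) h hy
        have e3 := intervalIntegral.integral_add_adjacent_intervals
          (sub D' iD x ℓ hx h' (by linarith)) (sub D' iD ℓ y hℓ.le h hy)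
        change w (m y) - w (m x) = ∫ s in x..y, D' s
        rw [← e3, ← e1, ← e2]; ring
  · intro x y hx hxy hy
    rcases le_total y ℓ with h | h
    · exact elow x y hx hxy h
    · rcases le_total ℓ x with h' | h'
      · exact ehigh x y h' hxy hy
      · have e1 := elow x ℓ hx h' (le_refl _)
        have e2 := ehigh ℓ y (le_refl _) h hy
        have e3 := intervalIntegral.integral_add_adjacent_intervals
          (sub _ iff x ℓ hx h' (by linarith)) (sub _ iff ℓ y hℓ.le h hy)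
        change -(∫ s in x..y, f (m s)) ≤ D' y - D' x
        rw [← e3]; linarith

theorem IsSub.refl {a b ℓ : ℝ} (hℓ : 0 < ℓ) {w₁ w₂ D₁ D₂ : ℝ → ℝ}
    (hs : IsSub a b ℓ w₁ w₂ D₁ D₂) (h1 : D₁ ℓ ≤ 0) (h2 : D₂ ℓ ≤ 0) :
    IsSub a b (2 * ℓ) (fun x => w₁ (min x (2 * ℓ - x))) (fun x => w₂ (min x (2 * ℓ - x)))
      (fun x => if x ≤ ℓ then D₁ x else -D₁ (2 * ℓ - x))
      (fun x => if x ≤ ℓ then D₂ x else -D₂ (2 * ℓ - x)) := by
  have hF1 : ContinuousOn (fun s => F₁ a (w₁ s) (w₂ s)) (Icc 0 ℓ) := by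
    have c1 := hs.cont₁
    have c2 := hs.cont₂
    unfold F₁
    fun_prop
  have hF2 : ContinuousOn (fun s => F₂ b (w₁ s) (w₂ s)) (Icc 0 ℓ) := by
    have c1 := hs.cont₁
    have c2 := hs.cont₂
    unfold F₂
    fun_prop
  have i1 : IntervalIntegrable (fun s => F₁ a (w₁ s) (w₂ s)) volume 0 ℓ :=
    hF1.intervalIntegrable_of_Icc hℓ.le
  have i2 : IntervalIntegrable (fun s => F₂ b (w₁ s) (w₂ s)) volume 0 ℓ :=
    hF2.intervalIntegrable_of_Icc hℓ.le
  obtain ⟨a1, a2, a3⟩ := refl_scalar hℓ hs.int₁ i1 hs.d₁ hs.e₁ h1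
  obtain ⟨b1, b2, b3⟩ := refl_scalar hℓ hs.int₂ i2 hs.d₂ hs.e₂ h2
  have hmaps : MapsTo (fun x : ℝ => min x (2 * ℓ - x)) (Icc 0 (2 * ℓ)) (Icc 0 ℓ) := by
    intro x hx
    refine ⟨le_min hx.1 (by linarith [hx.2]), ?_⟩
    rcases le_total x ℓ with h | h
    · exact (min_le_left _ _).trans h
    · exact (min_le_right _ _).trans (by linarith)
  have hcm : ContinuousOn (fun x : ℝ => min x (2 * ℓ - x)) (Icc 0 (2 * ℓ)) := by fun_prop
  exact ⟨hs.cont₁.comp hcm hmaps, hs.cont₂.comp hcm hmaps, a1, b1,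
    fun x hx => hs.mem _ (hmaps hx), a2, b2, a3, b3⟩

/-- the correction function near the right end -/
theorem exists_corr {x₁ x₂ : ℝ} (h0 : 0 ≤ x₁) (h12 : x₂ = x₁ + 1) :
    ∃ W : ℝ → ℝ, (∀ x, HasDerivAt W (max (x - x₁) 0) x) ∧ (∀ x ≤ x₁, W x = 0) ∧
      ∀ x, x₁ ≤ x → x ≤ x₂ → 0 ≤ W x ∧ W x ≤ 1 := by
  have hc : Continuous (fun s : ℝ => max (s - x₁) 0) := by fun_prop
  refine ⟨fun x => ∫ s in x₁..x, max (s - x₁) 0, ?_, ?_, ?_⟩
  · intro x
    exact intervalIntegral.integral_hasDerivAt_right (hc.intervalIntegrable _ _)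
      (hc.stronglyMeasurableAtFilter _ _) hc.continuousAt
  · intro x hx
    have : ∫ s in x₁..x, max (s - x₁) 0 = ∫ s in x₁..x, (0 : ℝ) := by
      apply intervalIntegral.integral_congr
      intro s hs
      rw [uIcc_of_ge hx] at hs
      exact max_eq_right (by linarith [hs.2])
    simp only [this, intervalIntegral.integral_zero]
  · intro x h1 h2
    constructor
    · exact intervalIntegral.integral_nonneg h1 (fun s _ => le_max_right _ _)
    · have : ∫ s in x₁..x, max (s - x₁) 0 ≤ ∫ s in x₁..x, (1 : ℝ) := by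
        apply intervalIntegral.integral_mono_on h1 (hc.intervalIntegrable _ _)
          intervalIntegrable_const
        intro s hs
        exact max_le (by linarith [hs.2]) zero_le_one
      refine this.trans ?_
      simp
      linarith

theorem P13_key1a {a α δ ε₀ P R : ℝ} (haα : a ≤ α) (h1 : 0 ≤ P) (h2 : 0 ≤ R) (hδ1 : δ ≤ 1)
    (he2 : a * ε₀ ≤ δ / 2) (hδ0 : 0 ≤ δ) :
    -F₁ a ((1 - δ) * P) (1 - (R + ε₀ * P)) ≤ (1 - δ) * -(P * (1 - P - α * R)) := by
  have base : 0 ≤ (1 - δ) * P * ((α - a) * R + (δ - a * ε₀) * P) :=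
    mul_nonneg (mul_nonneg (by linarith) h1)
      (add_nonneg (mul_nonneg (by linarith) h2) (mul_nonneg (by linarith) h1))
  have ident : F₁ a ((1 - δ) * P) (1 - (R + ε₀ * P)) - (1 - δ) * (P * (1 - P - α * R)) =
      (1 - δ) * P * ((α - a) * R + (δ - a * ε₀) * P) := by
    simp only [F₁]; ring
  linarith

theorem P13_key1b {a α δ ε₀ P R W cp cr ε : ℝ} (ha : 0 < a) (haα : a ≤ α) (h1 : 0 ≤ P)
    (h2 : 0 ≤ R) (h3 : P + R ≤ 1) (hδ0 : 0 < δ) (hδ1 : δ ≤ 1 / 2) (he2 : a * ε₀ ≤ δ / 2)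
    (hcp0 : 0 ≤ cp) (hcr0 : 0 ≤ cr) (hcp1 : cp ≤ ε) (hcr1 : cr ≤ ε) (g1 : 0 ≤ W) (g2 : W ≤ 1)
    (hP : 1 / 2 ≤ P) (hε2 : (2 + a) * ε ≤ δ / 16)
    (m1 : 0 ≤ (1 - δ) * P - cp * W) (m4 : 1 - (R + ε₀ * P + cr * W) ≤ 1) :
    -F₁ a ((1 - δ) * P - cp * W) (1 - (R + ε₀ * P + cr * W)) ≤
      (1 - δ) * -(P * (1 - P - α * R)) - cp * 1 := by
  have base2 : δ / 16 ≤ (1 - δ) * P * ((α - a) * R + (δ - a * ε₀) * P) := by
    have e1 : 1 / 2 * (1 / 2) ≤ (1 - δ) * P :=
      mul_le_mul (by linarith) hP (by norm_num) (by linarith)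
    have e2 : δ / 4 ≤ (α - a) * R + (δ - a * ε₀) * P := by
      have e3 : 0 ≤ (α - a) * R := mul_nonneg (by linarith) h2
      have e4 : δ / 2 * (1 / 2) ≤ (δ - a * ε₀) * P :=
        mul_le_mul (by linarith) hP (by norm_num) (by linarith)
      linarith
    have := mul_le_mul e1 e2 (by positivity) (by linarith)
    linarith
  have e0 : 0 ≤ (1 - δ) * P := mul_nonneg (by linarith) h1
  have e00 : (1 - δ) * P ≤ 1 := by
    calc (1 - δ) * P ≤ 1 * 1 := mul_le_mul (by linarith) (by linarith) h1 zero_le_one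
      _ = 1 := by ring
  have ecp0 : 0 ≤ cp * W := mul_nonneg hcp0 g1
  have ecr0 : 0 ≤ cr * W := mul_nonneg hcr0 g1
  have ecp : cp * W ≤ ε := by
    calc cp * W ≤ cp * 1 := mul_le_mul_of_nonneg_left g2 hcp0
      _ ≤ ε := by linarith
  have ecr : cr * W ≤ ε := by
    calc cr * W ≤ cr * 1 := mul_le_mul_of_nonneg_left g2 hcr0
      _ ≤ ε := by linarith
  have t1 : 0 ≤ (1 - δ) * P * (cp * W) := mul_nonneg e0 ecp0
  have t2 : (1 - δ) * P * (a * (cr * W)) ≤ a * ε := by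
    have e2 : a * (cr * W) ≤ a * ε := mul_le_mul_of_nonneg_left ecr ha.le
    calc (1 - δ) * P * (a * (cr * W)) ≤ 1 * (a * (cr * W)) :=
          mul_le_mul_of_nonneg_right e00 (mul_nonneg ha.le ecr0)
      _ ≤ a * ε := by linarith
  have t3 : cp * W * (1 - ((1 - δ) * P - cp * W) - a * (1 - (1 - (R + ε₀ * P + cr * W)))) ≤ ε := by
    have e3 : 1 - ((1 - δ) * P - cp * W) - a * (1 - (1 - (R + ε₀ * P + cr * W))) ≤ 1 := by
      have : 0 ≤ a * (1 - (1 - (R + ε₀ * P + cr * W))) := mul_nonneg ha.le (by linarith)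
      linarith
    calc _ ≤ cp * W * 1 := mul_le_mul_of_nonneg_left e3 ecp0
      _ ≤ ε := by linarith
  have ident : F₁ a ((1 - δ) * P - cp * W) (1 - (R + ε₀ * P + cr * W)) -
      (1 - δ) * (P * (1 - P - α * R)) =
      (1 - δ) * P * ((α - a) * R + (δ - a * ε₀) * P) +
        (1 - δ) * P * (cp * W) - (1 - δ) * P * (a * (cr * W)) -
        cp * W * (1 - ((1 - δ) * P - cp * W) - a * (1 - (1 - (R + ε₀ * P + cr * W)))) := by
    simp only [F₁]; ring
  linarith

theorem P13_key2a {b α β b2 δ ε₀ P R : ℝ} (h1 : 0 ≤ P) (h2 : 0 ≤ R) (hb2 : b2 = b * (1 - δ))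
    (q1 : 0 ≤ b2 - β + ε₀ - ε₀ * (α - 1)) (he0 : 0 ≤ ε₀) (h1b2 : 1 ≤ b2) :
    -F₂ b ((1 - δ) * P) (1 - (R + ε₀ * P)) ≤ -(-(R * (1 - β * P - R)) +
        ε₀ * -(P * (1 - P - α * R))) := by
  have base0 : 0 ≤ R * P * (b2 - β + ε₀ - ε₀ * (α - 1)) :=
    mul_nonneg (mul_nonneg h2 h1) q1
  have base1 : 0 ≤ ε₀ * P * P * (b2 - 1 + ε₀) :=
    mul_nonneg (mul_nonneg (mul_nonneg he0 h1) h1) (by linarith)
  have ident : F₂ b ((1 - δ) * P) (1 - (R + ε₀ * P)) + (R * (1 - β * P - R)) +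
      ε₀ * (P * (1 - P - α * R)) =
      R * P * (b2 - β + ε₀ - ε₀ * (α - 1)) + ε₀ * P * P * (b2 - 1 + ε₀) := by
    rw [hb2]
    simp only [F₂]; ring
  linarith

theorem P13_key2b {b α β b2 δ ε₀ P R W cp cr ε : ℝ} (hb0 : 0 < b) (h1 : 0 ≤ P) (h2 : 0 ≤ R)
    (h3 : P + R ≤ 1) (hb2 : b2 = b * (1 - δ))
    (q1 : 0 ≤ b2 - β + ε₀ - ε₀ * (α - 1)) (he0 : 0 ≤ ε₀) (he1 : ε₀ ≤ 1 / 2) (h1b2 : 1 ≤ b2)
    (hcp0 : 0 ≤ cp) (hcr0 : 0 ≤ cr) (hcp1 : cp ≤ ε) (hcr1 : cr ≤ ε) (g1 : 0 ≤ W) (g2 : W ≤ 1)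
    (hP : 1 / 2 ≤ P) (hε3 : (2 + b) * ε ≤ ε₀ * (b2 - 1) / 4)
    (m1 : 0 ≤ (1 - δ) * P - cp * W) (m4 : 1 - (R + ε₀ * P + cr * W) ≤ 1) :
    -F₂ b ((1 - δ) * P - cp * W) (1 - (R + ε₀ * P + cr * W)) ≤ -(-(R * (1 - β * P - R)) +
        ε₀ * -(P * (1 - P - α * R)) + cr * 1) := by
  have base0 : 0 ≤ R * P * (b2 - β + ε₀ - ε₀ * (α - 1)) :=
    mul_nonneg (mul_nonneg h2 h1) q1
  have base2 : ε₀ * (b2 - 1) / 4 ≤ ε₀ * P * P * (b2 - 1 + ε₀) := by
    have e1 : 1 / 2 * (1 / 2) ≤ P * P := mul_le_mul hP hP (by norm_num) h1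
    have e2 : ε₀ * (b2 - 1) ≤ ε₀ * (b2 - 1 + ε₀) :=
      mul_le_mul_of_nonneg_left (by linarith) he0
    have e3 : 0 ≤ ε₀ * (b2 - 1) := mul_nonneg he0 (by linarith)
    have := mul_le_mul e1 e2 e3 (mul_nonneg h1 h1)
    calc ε₀ * (b2 - 1) / 4 = 1 / 2 * (1 / 2) * (ε₀ * (b2 - 1)) := by ring
      _ ≤ P * P * (ε₀ * (b2 - 1 + ε₀)) := this
      _ = ε₀ * P * P * (b2 - 1 + ε₀) := by ring
  have ecp0 : 0 ≤ cp * W := mul_nonneg hcp0 g1
  have ecr0 : 0 ≤ cr * W := mul_nonneg hcr0 g1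
  have ecp : cp * W ≤ ε := by
    calc cp * W ≤ cp * 1 := mul_le_mul_of_nonneg_left g2 hcp0
      _ ≤ ε := by linarith
  have ecr : cr * W ≤ ε := by
    calc cr * W ≤ cr * 1 := mul_le_mul_of_nonneg_left g2 hcr0
      _ ≤ ε := by linarith
  have e6 : 0 ≤ R + ε₀ * P := add_nonneg h2 (mul_nonneg he0 h1)
  have e7 : R + ε₀ * P ≤ 1 := by
    have : ε₀ * P ≤ 1 * P := mul_le_mul_of_nonneg_right (by linarith) h1
    linarith
  have t1 : (R + ε₀ * P) * (b * (cp * W) - cr * W) ≤ b * ε := by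
    have e2 : b * (cp * W) ≤ b * ε := mul_le_mul_of_nonneg_left ecp hb0.le
    calc (R + ε₀ * P) * (b * (cp * W) - cr * W) ≤ (R + ε₀ * P) * (b * (cp * W)) :=
          mul_le_mul_of_nonneg_left (by linarith) e6
      _ ≤ 1 * (b * (cp * W)) := mul_le_mul_of_nonneg_right e7 (mul_nonneg hb0.le ecp0)
      _ ≤ b * ε := by linarith
  have t3 : cr * W * (1 - b * ((1 - δ) * P - cp * W) -
      (1 - (1 - (R + ε₀ * P + cr * W)))) ≤ ε := by
    have e3 : 1 - b * ((1 - δ) * P - cp * W) - (1 - (1 - (R + ε₀ * P + cr * W))) ≤ 1 := by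
      have : 0 ≤ b * ((1 - δ) * P - cp * W) := mul_nonneg hb0.le m1
      linarith
    calc _ ≤ cr * W * 1 := mul_le_mul_of_nonneg_left e3 ecr0
      _ ≤ ε := by linarith
  have ident : F₂ b ((1 - δ) * P - cp * W) (1 - (R + ε₀ * P + cr * W)) +
      (R * (1 - β * P - R)) + ε₀ * (P * (1 - P - α * R)) =
      R * P * (b2 - β + ε₀ - ε₀ * (α - 1)) + ε₀ * P * P * (b2 - 1 + ε₀) -
        (R + ε₀ * P) * (b * (cp * W) - cr * W) -
        cr * W * (1 - b * ((1 - δ) * P - cp * W) - (1 - (1 - (R + ε₀ * P + cr * W)))) := by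
    rw [hb2]
    simp only [F₂]; ring
  linarith

theorem exists_bar {a b : ℝ} (ha : 0 < a) (hb : 1 < b) (hab : a < b) : ∃ L > 0, Bar a b L := by
  have hb0 : 0 < b := by linarith
  obtain ⟨α, hα1, haα, hαb⟩ : ∃ α : ℝ, 1 ≤ α ∧ a ≤ α ∧ α < b :=
    ⟨max a 1, le_max_right _ _, le_max_left _ _, max_lt hab hb⟩
  obtain ⟨β, hαβ, hβb⟩ : ∃ β : ℝ, α < β ∧ β < b := ⟨(α + b) / 2, by linarith, by linarith⟩
  obtain ⟨δ, hδ0, hδ1, hδb⟩ : ∃ δ : ℝ, 0 < δ ∧ δ ≤ 1 / 2 ∧ β < b * (1 - δ) := by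
    refine ⟨(b - β) / (2 * b), by apply div_pos <;> linarith, ?_, ?_⟩
    · rw [div_le_iff₀ (by linarith)]; linarith
    · have : b * (1 - (b - β) / (2 * b)) = (b + β) / 2 := by field_simp; ring
      rw [this]; linarith
  obtain ⟨b2, hb2⟩ : ∃ b2 : ℝ, b2 = b * (1 - δ) := ⟨_, rfl⟩
  rw [← hb2] at hδb
  have h1b2 : 1 < b2 := by linarith
  obtain ⟨ε₀, he0, he1, he2, he3⟩ : ∃ ε₀ : ℝ, 0 < ε₀ ∧ ε₀ ≤ 1 / 2 ∧ a * ε₀ ≤ δ / 2 ∧
      ε₀ * (α - 1) ≤ (b2 - β) / 2 := by
    refine ⟨min (1 / 2) (min (δ / (2 * a)) ((b2 - β) / (2 * α))), ?_, min_le_left _ _, ?_, ?_⟩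
    · refine lt_min (by norm_num) (lt_min (by positivity) (div_pos (by linarith) (by linarith)))
    · have : min (1 / 2) (min (δ / (2 * a)) ((b2 - β) / (2 * α))) ≤ δ / (2 * a) :=
        (min_le_right _ _).trans (min_le_left _ _)
      calc a * _ ≤ a * (δ / (2 * a)) := mul_le_mul_of_nonneg_left this ha.le
        _ = δ / 2 := by field_simp
    · have : min (1 / 2) (min (δ / (2 * a)) ((b2 - β) / (2 * α))) ≤ (b2 - β) / (2 * α) :=
        (min_le_right _ _).trans (min_le_right _ _)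
      calc _ * (α - 1) ≤ (b2 - β) / (2 * α) * (α - 1) :=
            mul_le_mul_of_nonneg_right this (by linarith)
        _ ≤ (b2 - β) / (2 * α) * α :=
            mul_le_mul_of_nonneg_left (by linarith) (div_nonneg (by linarith) (by linarith))
        _ = (b2 - β) / 2 := by field_simp
  obtain ⟨ε, hε0, hε1, hε2, hε3⟩ : ∃ ε : ℝ, 0 < ε ∧ ε ≤ 1 / 4 ∧ (2 + a) * ε ≤ δ / 16 ∧
      (2 + b) * ε ≤ ε₀ * (b2 - 1) / 4 := by
    refine ⟨min (1 / 4) (min (δ / 16 / (2 + a)) (ε₀ * (b2 - 1) / 4 / (2 + b))), ?_,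
      min_le_left _ _, ?_, ?_⟩
    · have : 0 < ε₀ * (b2 - 1) := mul_pos he0 (by linarith)
      refine lt_min (by norm_num) (lt_min (by positivity) (by positivity))
    · have : min (1 / 4) (min (δ / 16 / (2 + a)) (ε₀ * (b2 - 1) / 4 / (2 + b))) ≤
        δ / 16 / (2 + a) := (min_le_right _ _).trans (min_le_left _ _)
      calc (2 + a) * _ ≤ (2 + a) * (δ / 16 / (2 + a)) :=
            mul_le_mul_of_nonneg_left this (by linarith)
        _ = δ / 16 := by field_simp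
    · have : min (1 / 4) (min (δ / 16 / (2 + a)) (ε₀ * (b2 - 1) / 4 / (2 + b))) ≤
        ε₀ * (b2 - 1) / 4 / (2 + b) := (min_le_right _ _).trans (min_le_right _ _)
      calc (2 + b) * _ ≤ (2 + b) * (ε₀ * (b2 - 1) / 4 / (2 + b)) :=
            mul_le_mul_of_nonneg_left this (by linarith)
        _ = ε₀ * (b2 - 1) / 4 := by field_simp
  obtain ⟨x₂, hx₂, P, R, P', R', hd, hP0, hR0, hmem, hP'0, hP'1, hR'0, hR'1, hclose⟩ :=
    front_block hα1 hαβ hε0
  set x₁ : ℝ := x₂ - 1 with hx₁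
  have hx₁0 : 0 ≤ x₁ := by rw [hx₁]; linarith
  have hx₂0 : 0 < x₂ := by linarith
  obtain ⟨W, hW, hW0, hW1⟩ := exists_corr hx₁0 (x₂ := x₂) (by rw [hx₁]; ring)
  obtain ⟨cp, hcp⟩ : ∃ cp : ℝ, cp = (1 - δ) * P' x₂ := ⟨_, rfl⟩
  obtain ⟨cr, hcr⟩ : ∃ cr : ℝ, cr = -R' x₂ := ⟨_, rfl⟩
  have hcp0 : 0 ≤ cp := by rw [hcp]; exact mul_nonneg (by linarith) hP'0
  have hcp1 : cp ≤ ε := by
    rw [hcp]
    calc (1 - δ) * P' x₂ ≤ 1 * P' x₂ := mul_le_mul_of_nonneg_right (by linarith) hP'0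
      _ ≤ ε := by linarith
  have hcr0 : 0 ≤ cr := by rw [hcr]; linarith
  have hcr1 : cr ≤ ε := by rw [hcr]; linarith
  -- the functions
  set w₁ : ℝ → ℝ := fun x => (1 - δ) * P x - cp * W x with hw₁
  set w₂ : ℝ → ℝ := fun x => 1 - (R x + ε₀ * P x + cr * W x) with hw₂
  set D₁ : ℝ → ℝ := fun x => (1 - δ) * P' x - cp * max (x - x₁) 0 with hD₁
  set D₂ : ℝ → ℝ := fun x => -(R' x + ε₀ * P' x + cr * max (x - x₁) 0) with hD₂
  have cP : ContinuousOn P (Icc 0 x₂) := fun x hx => (hd x hx).1.continuousAt.continuousWithinAt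
  have cR : ContinuousOn R (Icc 0 x₂) := fun x hx =>
    (hd x hx).2.1.continuousAt.continuousWithinAt
  have cP' : ContinuousOn P' (Icc 0 x₂) := fun x hx =>
    (hd x hx).2.2.1.continuousAt.continuousWithinAt
  have cR' : ContinuousOn R' (Icc 0 x₂) := fun x hx =>
    (hd x hx).2.2.2.continuousAt.continuousWithinAt
  have cW : ContinuousOn W (Icc 0 x₂) := fun x hx => (hW x).continuousAt.continuousWithinAt
  have cw₁ : ContinuousOn w₁ (Icc 0 x₂) := by rw [hw₁]; fun_prop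
  have cw₂ : ContinuousOn w₂ (Icc 0 x₂) := by rw [hw₂]; fun_prop
  have cD₁ : ContinuousOn D₁ (Icc 0 x₂) := by rw [hD₁]; fun_prop
  have cD₂ : ContinuousOn D₂ (Icc 0 x₂) := by rw [hD₂]; fun_prop
  have dw₁ : ∀ x ∈ Icc 0 x₂, HasDerivAt w₁ (D₁ x) x := fun x hx =>
    ((hd x hx).1.const_mul _).sub ((hW x).const_mul _)
  have dw₂ : ∀ x ∈ Icc 0 x₂, HasDerivAt w₂ (D₂ x) x := by
    intro x hx
    have := (((hd x hx).2.1.add ((hd x hx).1.const_mul ε₀)).add ((hW x).const_mul cr)).const_sub 1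
    exact this
  -- bounds
  have hWb : ∀ x ∈ Icc 0 x₂, 0 ≤ W x ∧ W x ≤ 1 := by
    intro x hx
    rcases le_total x x₁ with h | h
    · rw [hW0 x h]; exact ⟨le_refl _, zero_le_one⟩
    · exact hW1 x h hx.2
  have hP1 : ∀ x ∈ Icc 0 x₂, P x ≤ 1 := fun x hx => by
    obtain ⟨h1, h2, h3⟩ := hmem x hx
    linarith
  have hmemw : ∀ x ∈ Icc 0 x₂, w₁ x ∈ Icc (0 : ℝ) 1 ∧ w₂ x ∈ Icc (0 : ℝ) 1 := by
    intro x hx
    obtain ⟨h1, h2, h3⟩ := hmem x hx
    obtain ⟨g1, g2⟩ := hWb x hx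
    have hp1 := hP1 x hx
    have k1 : 0 ≤ cp * W x := mul_nonneg hcp0 g1
    have k2 : cp * W x ≤ ε :=
      (mul_le_mul_of_nonneg_left g2 hcp0).trans (by linarith)
    have k3 : 0 ≤ cr * W x := mul_nonneg hcr0 g1
    have k4 : cr * W x ≤ ε :=
      (mul_le_mul_of_nonneg_left g2 hcr0).trans (by linarith)
    have k5 : 0 ≤ ε₀ * P x := mul_nonneg he0.le h1
    have k6 : (1 - δ) * P x ≤ 1 * P x := mul_le_mul_of_nonneg_right (by linarith) h1
    rcases le_total x x₁ with h | h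
    · have w0 : W x = 0 := hW0 x h
      have k7 : ε₀ * P x ≤ 1 * P x := mul_le_mul_of_nonneg_right (by linarith) h1
      have k8 : 0 ≤ (1 - δ) * P x := mul_nonneg (by linarith) h1
      simp only [hw₁, hw₂, w0]
      exact ⟨⟨by linarith, by linarith⟩, by linarith, by linarith⟩
    · have hc := hclose x ⟨by rw [hx₁] at h; exact h, hx.2⟩
      have k7 : ε₀ * P x ≤ 1 / 2 * P x := mul_le_mul_of_nonneg_right he1 h1
      have k8 : 1 / 2 * P x ≤ (1 - δ) * P x := mul_le_mul_of_nonneg_right (by linarith) h1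
      simp only [hw₁, hw₂]
      exact ⟨⟨by linarith, by linarith⟩, by linarith, by linarith⟩
  -- integrability of the reaction terms and of the second derivatives
  have sub : ∀ g : ℝ → ℝ, ContinuousOn g (Icc 0 x₂) → ∀ x y, 0 ≤ x → x ≤ y → y ≤ x₂ →
      IntervalIntegrable g volume x y := by
    intro g hg x y hx hxy hy
    exact (hg.mono (Icc_subset_Icc hx hy)).intervalIntegrable_of_Icc hxy
  have cF₁ : ContinuousOn (fun s => F₁ a (w₁ s) (w₂ s)) (Icc 0 x₂) := by unfold F₁; fun_prop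
  have cF₂ : ContinuousOn (fun s => F₂ b (w₁ s) (w₂ s)) (Icc 0 x₂) := by unfold F₂; fun_prop
  have cf : ContinuousOn (fun s => -(P s * (1 - P s - α * R s))) (Icc 0 x₂) := by fun_prop
  have cg : ContinuousOn (fun s => -(R s * (1 - β * P s - R s))) (Icc 0 x₂) := by fun_prop
  have hPd : ∀ x y, 0 ≤ x → x ≤ y → y ≤ x₂ →
      ∫ s in x..y, -(P s * (1 - P s - α * R s)) = P' y - P' x := by
    intro x y hx hxy hy
    apply intervalIntegral.integral_eq_sub_of_hasDerivAt _ (sub _ cf x y hx hxy hy)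
    intro s hs
    rw [uIcc_of_le hxy] at hs
    exact (hd s ⟨hx.trans hs.1, hs.2.trans hy⟩).2.2.1
  have hRd : ∀ x y, 0 ≤ x → x ≤ y → y ≤ x₂ →
      ∫ s in x..y, -(R s * (1 - β * P s - R s)) = R' y - R' x := by
    intro x y hx hxy hy
    apply intervalIntegral.integral_eq_sub_of_hasDerivAt _ (sub _ cg x y hx hxy hy)
    intro s hs
    rw [uIcc_of_le hxy] at hs
    exact (hd s ⟨hx.trans hs.1, hs.2.trans hy⟩).2.2.2
  -- the pointwise inequalities
  have key1 : ∀ x ∈ Icc 0 x₂, ∀ c : ℝ, (c = 0 ∧ W x = 0 ∨ c = 1 ∧ 1 - ε ≤ P x) →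
      -F₁ a (w₁ x) (w₂ x) ≤ (1 - δ) * -(P x * (1 - P x - α * R x)) - cp * c := by
    intro x hx c hc
    obtain ⟨h1, h2, h3⟩ := hmem x hx
    obtain ⟨g1, g2⟩ := hWb x hx
    obtain ⟨⟨m1, m2⟩, m3, m4⟩ := hmemw x hx
    rcases hc with ⟨hc, hw⟩ | ⟨hc, hP⟩
    · have := P13_key1a (R := R x) haα h1 h2 (by linarith : δ ≤ 1) he2 (by linarith : 0 ≤ δ)
      simp only [hw₁, hw₂, hw, hc, mul_zero, sub_zero, add_zero]
      exact this
    · rw [hc]
      exact P13_key1b ha haα h1 h2 h3 hδ0 hδ1 he2 hcp0 hcr0 hcp1 hcr1 g1 g2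
        (by linarith) hε2 m1 m4
  have key2 : ∀ x ∈ Icc 0 x₂, ∀ c : ℝ, (c = 0 ∧ W x = 0 ∨ c = 1 ∧ 1 - ε ≤ P x) →
      -F₂ b (w₁ x) (w₂ x) ≤ -(-(R x * (1 - β * P x - R x)) +
        ε₀ * -(P x * (1 - P x - α * R x)) + cr * c) := by
    intro x hx c hc
    obtain ⟨h1, h2, h3⟩ := hmem x hx
    obtain ⟨g1, g2⟩ := hWb x hx
    obtain ⟨⟨m1, m2⟩, m3, m4⟩ := hmemw x hx
    have q1 : 0 ≤ b2 - β + ε₀ - ε₀ * (α - 1) := by linarith
    rcases hc with ⟨hc, hw⟩ | ⟨hc, hP⟩
    · have := P13_key2a (P := P x) (R := R x) h1 h2 hb2 q1 he0.le h1b2.le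
      simp only [hw₁, hw₂, hw, hc, mul_zero, sub_zero, add_zero]
      exact this
    · rw [hc]
      exact P13_key2b hb0 h1 h2 h3 hb2 q1 he0.le he1 h1b2.le hcp0 hcr0 hcp1 hcr1 g1 g2
        (by linarith) hε3 m1 m4
  -- the subsolution inequalities
  have split : ∀ (F D : ℝ → ℝ), ContinuousOn F (Icc 0 x₂) →
      (∀ x y, 0 ≤ x → x ≤ y → y ≤ x₁ → -(∫ s in x..y, F s) ≤ D y - D x) →
      (∀ x y, x₁ ≤ x → x ≤ y → y ≤ x₂ → -(∫ s in x..y, F s) ≤ D y - D x) →
      ∀ x y, 0 ≤ x → x ≤ y → y ≤ x₂ → -(∫ s in x..y, F s) ≤ D y - D x := by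
    intro F D hF h1 h2 x y hx hxy hy
    rcases le_total y x₁ with h | h
    · exact h1 x y hx hxy h
    · rcases le_total x₁ x with h' | h'
      · exact h2 x y h' hxy hy
      · have e1 := h1 x x₁ hx h' (le_refl _)
        have e2 := h2 x₁ y (le_refl _) h hy
        have e3 := intervalIntegral.integral_add_adjacent_intervals
          (sub F hF x x₁ hx h' (by linarith)) (sub F hF x₁ y hx₁0 h hy)
        rw [← e3]; linarith
  have hsub : IsSub a b x₂ w₁ w₂ D₁ D₂ := by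
    refine ⟨cw₁, cw₂, cD₁.intervalIntegrable_of_Icc hx₂0.le,
      cD₂.intervalIntegrable_of_Icc hx₂0.le, hmemw, ?_, ?_, ?_, ?_⟩
    · intro x y hx hxy hy
      symm
      apply intervalIntegral.integral_eq_sub_of_hasDerivAt _ (sub _ cD₁ x y hx hxy hy)
      intro s hs
      rw [uIcc_of_le hxy] at hs
      exact dw₁ s ⟨hx.trans hs.1, hs.2.trans hy⟩
    · intro x y hx hxy hy
      symm
      apply intervalIntegral.integral_eq_sub_of_hasDerivAt _ (sub _ cD₂ x y hx hxy hy)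
      intro s hs
      rw [uIcc_of_le hxy] at hs
      exact dw₂ s ⟨hx.trans hs.1, hs.2.trans hy⟩
    · apply split _ _ cF₁
      · intro x y hx hxy hy
        have e1 : D₁ y - D₁ x = ∫ s in x..y, ((1 - δ) * -(P s * (1 - P s - α * R s)) - cp * 0) := by
          rw [intervalIntegral.integral_sub ((sub _ cf x y hx hxy (by linarith)).const_mul _)
            intervalIntegrable_const, intervalIntegral.integral_const_mul,
            hPd x y hx hxy (by linarith)]
          simp only [hD₁, max_eq_right (show x - x₁ ≤ 0 by linarith),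
            max_eq_right (show y - x₁ ≤ 0 by linarith), intervalIntegral.integral_const,
            smul_eq_mul]
          ring
        rw [e1, ← intervalIntegral.integral_neg]
        apply intervalIntegral.integral_mono_on hxy (sub _ cF₁ x y hx hxy (by linarith)).neg
          (((sub _ cf x y hx hxy (by linarith)).const_mul _).sub intervalIntegrable_const)
        intro s hs
        exact key1 s ⟨hx.trans hs.1, by linarith [hs.2]⟩ 0 (Or.inl ⟨rfl, hW0 s (hs.2.trans hy)⟩)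
      · intro x y hx hxy hy
        have hx0 : 0 ≤ x := hx₁0.trans hx
        have e1 : D₁ y - D₁ x = ∫ s in x..y, ((1 - δ) * -(P s * (1 - P s - α * R s)) - cp * 1) := by
          rw [intervalIntegral.integral_sub ((sub _ cf x y hx0 hxy hy).const_mul _)
            intervalIntegrable_const, intervalIntegral.integral_const_mul, hPd x y hx0 hxy hy]
          simp only [hD₁, max_eq_left (show 0 ≤ x - x₁ by linarith),
            max_eq_left (show 0 ≤ y - x₁ by linarith), intervalIntegral.integral_const,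
            smul_eq_mul]
          ring
        rw [e1, ← intervalIntegral.integral_neg]
        apply intervalIntegral.integral_mono_on hxy (sub _ cF₁ x y hx0 hxy hy).neg
          (((sub _ cf x y hx0 hxy hy).const_mul _).sub intervalIntegrable_const)
        intro s hs
        exact key1 s ⟨hx0.trans hs.1, hs.2.trans hy⟩ 1
          (Or.inr ⟨rfl, hclose s ⟨hx.trans hs.1, hs.2.trans hy⟩⟩)
    · apply split _ _ cF₂
      · intro x y hx hxy hy
        have e1 : D₂ y - D₂ x = ∫ s in x..y, -(-(R s * (1 - β * P s - R s)) +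
            ε₀ * -(P s * (1 - P s - α * R s)) + cr * 0) := by
          rw [intervalIntegral.integral_neg, intervalIntegral.integral_add
            ((sub _ cg x y hx hxy (by linarith)).add
              ((sub _ cf x y hx hxy (by linarith)).const_mul _)) intervalIntegrable_const,
            intervalIntegral.integral_add (sub _ cg x y hx hxy (by linarith))
              ((sub _ cf x y hx hxy (by linarith)).const_mul _),
            intervalIntegral.integral_const_mul, hPd x y hx hxy (by linarith),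
            hRd x y hx hxy (by linarith)]
          simp only [hD₂, max_eq_right (show x - x₁ ≤ 0 by linarith),
            max_eq_right (show y - x₁ ≤ 0 by linarith), intervalIntegral.integral_const,
            smul_eq_mul]
          ring
        rw [e1, ← intervalIntegral.integral_neg]
        apply intervalIntegral.integral_mono_on hxy (sub _ cF₂ x y hx hxy (by linarith)).neg
          (((sub _ cg x y hx hxy (by linarith)).add
            ((sub _ cf x y hx hxy (by linarith)).const_mul _)).add intervalIntegrable_const).neg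
        intro s hs
        exact key2 s ⟨hx.trans hs.1, by linarith [hs.2]⟩ 0 (Or.inl ⟨rfl, hW0 s (hs.2.trans hy)⟩)
      · intro x y hx hxy hy
        have hx0 : 0 ≤ x := hx₁0.trans hx
        have e1 : D₂ y - D₂ x = ∫ s in x..y, -(-(R s * (1 - β * P s - R s)) +
            ε₀ * -(P s * (1 - P s - α * R s)) + cr * 1) := by
          rw [intervalIntegral.integral_neg, intervalIntegral.integral_add
            ((sub _ cg x y hx0 hxy hy).add
              ((sub _ cf x y hx0 hxy hy).const_mul _)) intervalIntegrable_const,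
            intervalIntegral.integral_add (sub _ cg x y hx0 hxy hy)
              ((sub _ cf x y hx0 hxy hy).const_mul _),
            intervalIntegral.integral_const_mul, hPd x y hx0 hxy hy, hRd x y hx0 hxy hy]
          simp only [hD₂, max_eq_left (show 0 ≤ x - x₁ by linarith),
            max_eq_left (show 0 ≤ y - x₁ by linarith), intervalIntegral.integral_const,
            smul_eq_mul]
          ring
        rw [e1, ← intervalIntegral.integral_neg]
        apply intervalIntegral.integral_mono_on hxy (sub _ cF₂ x y hx0 hxy hy).neg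
          (((sub _ cg x y hx0 hxy hy).add
            ((sub _ cf x y hx0 hxy hy).const_mul _)).add intervalIntegrable_const).neg
        intro s hs
        exact key2 s ⟨hx0.trans hs.1, hs.2.trans hy⟩ 1
          (Or.inr ⟨rfl, hclose s ⟨hx.trans hs.1, hs.2.trans hy⟩⟩)
  have hx21 : x₂ - x₁ = 1 := by rw [hx₁]; ring
  have end1 : D₁ x₂ ≤ 0 := by
    simp only [hD₁, hx21, hcp, max_eq_left zero_le_one]; linarith
  have end2 : D₂ x₂ ≤ 0 := by
    have : 0 ≤ ε₀ * P' x₂ := mul_nonneg he0.le hP'0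
    simp only [hD₂, hx21, hcr, max_eq_left zero_le_one]; linarith
  have hrefl := hsub.refl hx₂0 end1 end2
  have hm0 : min (0 : ℝ) (2 * x₂ - 0) = 0 := min_eq_left (by linarith)
  have hm2 : min (2 * x₂) (2 * x₂ - 2 * x₂) = 0 := by
    rw [sub_self]; exact min_eq_right (by linarith)
  have hW00 : W 0 = 0 := hW0 0 hx₁0
  refine ⟨2 * x₂, by linarith, bar_of_sub ha hb0 (by linarith) hrefl ?_ ?_ ?_ ?_ ?_⟩
  · simp only [hm0, hw₁, hP0, hW00]; ring
  · simp only [hm2, hw₁, hP0, hW00]; ring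
  · simp only [hm0, hw₂, hP0, hR0, hW00]; ring
  · simp only [hm2, hw₂, hP0, hR0, hW00]; ring
  · refine ⟨x₁, ⟨hx₁0, by linarith⟩, ?_⟩
    have hmx : min x₁ (2 * x₂ - x₁) = x₁ := min_eq_left (by linarith)
    have hPx : 1 - ε ≤ P x₁ := hclose x₁ ⟨le_refl _, by linarith⟩
    have hWx : W x₁ = 0 := hW0 x₁ (le_refl _)
    simp only [hmx, hw₁, hWx]
    have : 0 < (1 - δ) * P x₁ := mul_pos (by linarith) (by linarith)
    intro h
    linarith

end Pool.Agent.H62.LV
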