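import Pool.Agent.Helper18.LV.P10
import Pool.Agent.H62.LV.P13

namespace Pool.Agent.H62.LV

open MeasureTheory Set Filter Topology

theorem exists_threshold {a b : ℝ} (ha : 0 < a) (hb : 1 < b) (hab : a < b) :
    ∃ Lstar : ℝ, Real.pi < Lstar ∧ (∀ L, 0 < L → L < Lstar → ¬ Bar a b L) ∧
      ∀ L, Lstar < L → Bar a b L := by
  have hb0 : 0 < b := by linarith
  obtain ⟨δ, hδ, hno⟩ := no_bar_near_pi ha hb0
  obtain ⟨L₀, hL₀, hbar₀⟩ := exists_bar ha hb hab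
  set S : Set ℝ := {L | 0 < L ∧ Bar a b L} with hS
  have hne : S.Nonempty := ⟨L₀, hL₀, hbar₀⟩
  have hbd : BddBelow S := ⟨0, fun L hL => hL.1.le⟩
  have hge : Real.pi + δ ≤ sInf S := by
    apply le_csInf hne
    intro L hL
    by_contra hlt
    push Not at hlt
    exact hno L hL.1 hlt.le hL.2
  refine ⟨sInf S, by linarith, ?_, ?_⟩
  · intro L hL hlt hB
    exact absurd (csInf_le hbd (show L ∈ S from ⟨hL, hB⟩)) (not_le.mpr hlt)
  · intro L hlt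
    obtain ⟨L₁, hL₁, hlt₁⟩ := (csInf_lt_iff hbd hne).mp hlt
    exact bar_mono ha hb0 hL₁.1 hlt₁ hL₁.2

theorem barrier_of_bar {a b L : ℝ} (hL : 0 < L) (h : Bar a b L) :
    ∃ θ₁ θ₂ : ℝ → ℝ, IsBarrier a b L θ₁ θ₂ := by
  obtain ⟨p, q, ⟨hmem, p', q', hd⟩, hp0, hq0, hpL, hqL, x₀, hx₀, hne⟩ := h
  refine ⟨p, fun x => 1 - q x, ?_⟩
  have hdp : ∀ x ∈ Icc 0 L, HasDerivAt p (p' x) x := fun x hx => (hd x hx).1
  have hdq : ∀ x ∈ Icc 0 L, HasDerivAt q (q' x) x := fun x hx => (hd x hx).2.1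
  have e1 : ∀ x ∈ Ioo 0 L, deriv p =ᶠ[𝓝 x] p' := by
    intro x hx
    filter_upwards [Ioo_mem_nhds hx.1 hx.2] with y hy
    exact (hdp y ⟨hy.1.le, hy.2.le⟩).deriv
  have e2 : ∀ x ∈ Ioo 0 L, deriv (fun x => 1 - q x) =ᶠ[𝓝 x] fun x => -q' x := by
    intro x hx
    filter_upwards [Ioo_mem_nhds hx.1 hx.2] with y hy
    exact ((hdq y ⟨hy.1.le, hy.2.le⟩).const_sub 1).deriv
  constructor
  · exact ⟨fun x hx => (hdp x hx).continuousAt.continuousWithinAt,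
      fun x hx => ((hdq x hx).const_sub 1).continuousAt.continuousWithinAt⟩
  · intro x hx
    exact ⟨(hdp x ⟨hx.1.le, hx.2.le⟩).differentiableAt,
      ((hdq x ⟨hx.1.le, hx.2.le⟩).const_sub 1).differentiableAt⟩
  · intro x hx
    have := (hd x ⟨hx.1.le, hx.2.le⟩).2.2.1
    refine (this.congr_of_eventuallyEq (e1 x hx)).congr_deriv ?_
    simp only [F₁]; ring
  · intro x hx
    have := (hd x ⟨hx.1.le, hx.2.le⟩).2.2.2.neg
    refine (this.congr_of_eventuallyEq (e2 x hx)).congr_deriv ?_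
    simp only [F₂]; ring
  · intro x hx
    obtain ⟨⟨h1, h2⟩, h3, h4⟩ := hmem x hx
    exact ⟨⟨h1, h2⟩, by linarith, by linarith⟩
  · exact ⟨hp0, by simp [hq0]⟩
  · exact ⟨hpL, by simp [hqL]⟩
  · exact ⟨x₀, hx₀, fun h => hne (by simpa using (Prod.mk.inj h).1)⟩

end Pool.Agent.H62.LV
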