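import Mathlib

/-!
Elementary calculus tools: second derivative test, uniqueness for linear second order systems.
-/

namespace Pool.Agent.H62.LV

open Set Filter Topology

/-- at an interior maximum the second derivative is nonpositive -/
theorem second_le_zero_of_max {f f' : ℝ → ℝ} {l r c x₀ : ℝ} (hx₀ : x₀ ∈ Ioo l r)
    (hd : ∀ x ∈ Ioo l r, HasDerivAt f (f' x) x) (hc : HasDerivAt f' c x₀)
    (hmax : ∀ x ∈ Ioo l r, f x ≤ f x₀) : f' x₀ = 0 ∧ c ≤ 0 := by
  have hlm : IsLocalMax f x₀ := by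
    filter_upwards [Ioo_mem_nhds hx₀.1 hx₀.2] with x hx using hmax x hx
  have h0 : f' x₀ = 0 := hlm.hasDerivAt_eq_zero (hd x₀ hx₀)
  refine ⟨h0, ?_⟩
  by_contra hpos
  push Not at hpos
  -- near x₀ on the right, f' > 0
  have h1 : ∀ᶠ x in 𝓝[>] x₀, 0 < f' x := by
    have hs := hasDerivAt_iff_tendsto_slope.mp hc
    have h2 : ∀ᶠ x in 𝓝[≠] x₀, 0 < slope f' x₀ x := hs.eventually (lt_mem_nhds hpos)
    have h3 : ∀ᶠ x in 𝓝[>] x₀, 0 < slope f' x₀ x :=
      h2.filter_mono (nhdsWithin_mono _ (fun x hx => ne_of_gt hx))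
    filter_upwards [h3, self_mem_nhdsWithin] with x hx hx'
    rw [slope_def_field, h0, sub_zero] at hx
    have : 0 < x - x₀ := sub_pos.mpr hx'
    exact (div_pos_iff_of_pos_right this).mp hx
  have h4 : ∀ᶠ x in 𝓝[>] x₀, x < r := by
    filter_upwards [nhdsWithin_le_nhds (Iio_mem_nhds hx₀.2)] with x hx using hx
  obtain ⟨u, hu, hu'⟩ := (mem_nhdsGT_iff_exists_Ioo_subset' (show x₀ < x₀ + 1 by linarith)).mp
    (h1.and h4)
  have hu1 : x₀ < u := hu
  set y := (x₀ + u) / 2 with hy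
  have hy1 : x₀ < y := by rw [hy]; linarith
  have hy2 : y < u := by rw [hy]; linarith
  have hyr : y < r := (hu' ⟨hy1, hy2⟩).2
  have hcont : ContinuousOn f (Icc x₀ y) := fun x hx =>
    (hd x ⟨lt_of_lt_of_le hx₀.1 hx.1, lt_of_le_of_lt hx.2 hyr⟩).continuousAt.continuousWithinAt
  obtain ⟨z, hz, hz'⟩ := exists_hasDerivAt_eq_slope f f' hy1 hcont
    (fun x hx => hd x ⟨hx₀.1.trans hx.1, hx.2.trans hyr⟩)
  have hzpos : 0 < f' z := (hu' ⟨hz.1, hz.2.trans hy2⟩).1
  rw [hz'] at hzpos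
  have : 0 < f y - f x₀ := (div_pos_iff_of_pos_right (sub_pos.mpr hy1)).mp hzpos
  have := hmax y ⟨hx₀.1.trans hy1, hyr⟩
  linarith

/-- at an interior minimum the second derivative is nonnegative -/
theorem second_ge_zero_of_min {f f' : ℝ → ℝ} {l r c x₀ : ℝ} (hx₀ : x₀ ∈ Ioo l r)
    (hd : ∀ x ∈ Ioo l r, HasDerivAt f (f' x) x) (hc : HasDerivAt f' c x₀)
    (hmin : ∀ x ∈ Ioo l r, f x₀ ≤ f x) : f' x₀ = 0 ∧ 0 ≤ c := by
  have := second_le_zero_of_max (f := fun x => -f x) (f' := fun x => -f' x) (c := -c) hx₀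
    (fun x hx => (hd x hx).neg) hc.neg (fun x hx => neg_le_neg (hmin x hx))
  exact ⟨by simpa using this.1, by linarith [this.2]⟩

/-- a nonnegative function with `|E'| ≤ C E` vanishing at one point vanishes identically -/
theorem eq_zero_of_gronwall {E E' : ℝ → ℝ} {l r C x₀ : ℝ} (hx₀ : x₀ ∈ Icc l r)
    (hd : ∀ x ∈ Icc l r, HasDerivAt E (E' x) x) (h : ∀ x ∈ Icc l r, |E' x| ≤ C * E x)
    (hn : ∀ x ∈ Icc l r, 0 ≤ E x) (h0 : E x₀ = 0) : ∀ x ∈ Icc l r, E x = 0 := by
  intro x hx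
  apply le_antisymm _ (hn x hx)
  rcases le_total x₀ x with hle | hle
  · -- E e^{-C(x-x₀)} is nonincreasing
    have hanti : AntitoneOn (fun y => E y * Real.exp (-C * y)) (Icc x₀ x) := by
      apply antitoneOn_of_hasDerivWithinAt_nonpos (convex_Icc _ _)
        (f' := fun y => E' y * Real.exp (-C * y) + E y * (Real.exp (-C * y) * (-C)))
      · intro y hy
        have hd1 := hd y ⟨hx₀.1.trans hy.1, hy.2.trans hx.2⟩
        exact (hd1.continuousAt.mul (by fun_prop)).continuousWithinAt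
      · intro y hy
        rw [interior_Icc] at hy
        have hd1 := hd y ⟨hx₀.1.trans hy.1.le, hy.2.le.trans hx.2⟩
        have hd2 : HasDerivAt (fun y => Real.exp (-C * y)) (Real.exp (-C * y) * (-C)) y := by
          have := ((hasDerivAt_id y).const_mul (-C)).exp
          simpa using this
        exact (hd1.mul hd2).hasDerivWithinAt
      · intro y hy
        rw [interior_Icc] at hy
        have hb := h y ⟨hx₀.1.trans hy.1.le, hy.2.le.trans hx.2⟩
        have hE := abs_le.mp hb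
        have : E' y * Real.exp (-C * y) + E y * (Real.exp (-C * y) * (-C)) =
            (E' y - C * E y) * Real.exp (-C * y) := by ring
        rw [this]
        exact mul_nonpos_of_nonpos_of_nonneg (by linarith [hE.2]) (Real.exp_pos _).le
    have h1 := hanti (left_mem_Icc.mpr hle) (right_mem_Icc.mpr hle) hle
    simp only [h0, zero_mul] at h1
    nlinarith [Real.exp_pos (-C * x)]
  · have hmono : MonotoneOn (fun y => E y * Real.exp (C * y)) (Icc x x₀) := by
      apply monotoneOn_of_hasDerivWithinAt_nonneg (convex_Icc _ _)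
        (f' := fun y => E' y * Real.exp (C * y) + E y * (Real.exp (C * y) * C))
      · intro y hy
        have hd1 := hd y ⟨hx.1.trans hy.1, hy.2.trans hx₀.2⟩
        exact (hd1.continuousAt.mul (by fun_prop)).continuousWithinAt
      · intro y hy
        rw [interior_Icc] at hy
        have hd1 := hd y ⟨hx.1.trans hy.1.le, hy.2.le.trans hx₀.2⟩
        have hd2 : HasDerivAt (fun y => Real.exp (C * y)) (Real.exp (C * y) * C) y := by
          have := ((hasDerivAt_id y).const_mul C).exp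
          simpa using this
        exact (hd1.mul hd2).hasDerivWithinAt
      · intro y hy
        rw [interior_Icc] at hy
        have hb := h y ⟨hx.1.trans hy.1.le, hy.2.le.trans hx₀.2⟩
        have hE := abs_le.mp hb
        have : E' y * Real.exp (C * y) + E y * (Real.exp (C * y) * C) =
            (E' y + C * E y) * Real.exp (C * y) := by ring
        rw [this]
        exact mul_nonneg (by linarith [hE.1]) (Real.exp_pos _).le
    have h1 := hmono (left_mem_Icc.mpr hle) (right_mem_Icc.mpr hle) hle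
    simp only [h0, zero_mul] at h1
    nlinarith [Real.exp_pos (C * x)]

/-- uniqueness for `u'' = c₁₁ u + c₁₂ v`, `v'' = c₂₁ u + c₂₂ v` with bounded coefficients -/
theorem linear_system_unique {u v u' v' c₁₁ c₁₂ c₂₁ c₂₂ : ℝ → ℝ} {l r M x₀ : ℝ}
    (hx₀ : x₀ ∈ Icc l r) (hM : 0 ≤ M)
    (hu : ∀ x ∈ Icc l r, HasDerivAt u (u' x) x) (hv : ∀ x ∈ Icc l r, HasDerivAt v (v' x) x)
    (hu' : ∀ x ∈ Icc l r, HasDerivAt u' (c₁₁ x * u x + c₁₂ x * v x) x)
    (hv' : ∀ x ∈ Icc l r, HasDerivAt v' (c₂₁ x * u x + c₂₂ x * v x) x)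
    (b₁₁ : ∀ x ∈ Icc l r, |c₁₁ x| ≤ M) (b₁₂ : ∀ x ∈ Icc l r, |c₁₂ x| ≤ M)
    (b₂₁ : ∀ x ∈ Icc l r, |c₂₁ x| ≤ M) (b₂₂ : ∀ x ∈ Icc l r, |c₂₂ x| ≤ M)
    (h1 : u x₀ = 0) (h2 : v x₀ = 0) (h3 : u' x₀ = 0) (h4 : v' x₀ = 0) :
    ∀ x ∈ Icc l r, u x = 0 ∧ v x = 0 := by
  have key := eq_zero_of_gronwall (E := fun x => u x ^ 2 + v x ^ 2 + u' x ^ 2 + v' x ^ 2)
    (E' := fun x => 2 * u x * u' x + 2 * v x * v' x + 2 * u' x * (c₁₁ x * u x + c₁₂ x * v x) +
      2 * v' x * (c₂₁ x * u x + c₂₂ x * v x)) (C := 2 * M + 2) hx₀ ?_ ?_ ?_ ?_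
  · intro x hx
    have := key x hx
    constructor <;> nlinarith [sq_nonneg (u x), sq_nonneg (v x), sq_nonneg (u' x),
      sq_nonneg (v' x)]
  · intro x hx
    have e1 := (hu x hx).pow 2
    have e2 := (hv x hx).pow 2
    have e3 := (hu' x hx).pow 2
    have e4 := (hv' x hx).pow 2
    refine (((e1.add e2).add e3).add e4).congr_deriv ?_
    simp only [Nat.cast_ofNat, Nat.add_one_sub_one, pow_one]
  · intro x hx
    have hh : ∀ c s t : ℝ, |c| ≤ M → |2 * s * (c * t)| ≤ M * (s ^ 2 + t ^ 2) := by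
      intro c s t hc
      have h5 : |2 * s * (c * t)| = |c| * (2 * |s| * |t|) := by
        rw [abs_mul, abs_mul, abs_mul, abs_two]; ring
      rw [h5]
      have h6 : 2 * |s| * |t| ≤ s ^ 2 + t ^ 2 := by
        nlinarith [sq_nonneg (|s| - |t|), sq_abs s, sq_abs t]
      calc |c| * (2 * |s| * |t|) ≤ M * (2 * |s| * |t|) :=
            mul_le_mul_of_nonneg_right hc (by positivity)
        _ ≤ M * (s ^ 2 + t ^ 2) := mul_le_mul_of_nonneg_left h6 hM
    have hk : ∀ s t : ℝ, |2 * s * t| ≤ s ^ 2 + t ^ 2 := by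
      intro s t
      rw [abs_mul, abs_mul, abs_two]
      nlinarith [sq_nonneg (|s| - |t|), sq_abs s, sq_abs t]
    have a1 := hk (u x) (u' x)
    have a2 := hk (v x) (v' x)
    have a3 := hh (c₁₁ x) (u' x) (u x) (b₁₁ x hx)
    have a4 := hh (c₁₂ x) (u' x) (v x) (b₁₂ x hx)
    have a5 := hh (c₂₁ x) (v' x) (u x) (b₂₁ x hx)
    have a6 := hh (c₂₂ x) (v' x) (v x) (b₂₂ x hx)
    rw [show 2 * u x * u' x + 2 * v x * v' x + 2 * u' x * (c₁₁ x * u x + c₁₂ x * v x) +
      2 * v' x * (c₂₁ x * u x + c₂₂ x * v x) = 2 * u x * u' x + 2 * v x * v' x +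
        2 * u' x * (c₁₁ x * u x) + 2 * u' x * (c₁₂ x * v x) + 2 * v' x * (c₂₁ x * u x) +
        2 * v' x * (c₂₂ x * v x) by ring]
    rw [abs_le] at *
    constructor <;> nlinarith [sq_nonneg (u x), sq_nonneg (v x), sq_nonneg (u' x),
      sq_nonneg (v' x), mul_nonneg hM (sq_nonneg (u x)), mul_nonneg hM (sq_nonneg (v x)),
      mul_nonneg hM (sq_nonneg (u' x)), mul_nonneg hM (sq_nonneg (v' x))]
  · intro x hx
    positivity
  · simp [h1, h2, h3, h4]

end Pool.Agent.H62.LV
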