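import Pool.Agent.H62.LV.Base
import Pool.Agent.H62.LV.Tools

namespace Pool.Agent.H62.LV

open MeasureTheory Set Filter Topology

/-- a barrier exceeds the coexistence state somewhere -/
theorem bar_exceeds {a b L : ℝ} (ha : 1 < a) (hb : 1 < b) (hL : 0 < L) {p q : ℝ → ℝ}
    (hst : Stat a b L p q) (hz : p 0 = 0 ∧ q 0 = 0 ∧ p L = 0 ∧ q L = 0)
    (hne : ∃ x ∈ Icc 0 L, p x ≠ 0) : ∃ x ∈ Ioo 0 L, (a - 1) / (a * b - 1) < p x := by
  obtain ⟨hmem, p', q', hd⟩ := hst
  obtain ⟨hp0, hq0, hpL, hqL⟩ := hz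
  have hab : 0 < a * b - 1 := by nlinarith
  set s : ℝ := (a - 1) / (a * b - 1) with hs
  have hspos : 0 < s := div_pos (by linarith) hab
  have hseq : s * (a * b - 1) = a - 1 := by rw [hs]; field_simp
  by_contra hcon
  push Not at hcon
  have cp : ContinuousOn p (Icc 0 L) := fun x hx =>
    (hd x hx).1.continuousAt.continuousWithinAt
  have cq : ContinuousOn q (Icc 0 L) := fun x hx =>
    (hd x hx).2.1.continuousAt.continuousWithinAt
  -- maximum of p
  obtain ⟨x₀, hx₀, hmax⟩ := isCompact_Icc.exists_isMaxOn (nonempty_Icc.mpr hL.le) cp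
  have hmax' : ∀ x ∈ Icc 0 L, p x ≤ p x₀ := fun x hx => hmax hx
  obtain ⟨y, hy, hpy⟩ := hne
  have hpy' : 0 < p y := lt_of_le_of_ne (hmem y hy).1.1 (Ne.symm hpy)
  have hpx₀ : 0 < p x₀ := lt_of_lt_of_le hpy' (hmax' y hy)
  have hx₀' : x₀ ∈ Ioo 0 L := by
    refine ⟨lt_of_le_of_ne hx₀.1 ?_, lt_of_le_of_ne hx₀.2 ?_⟩
    · rintro h; rw [← h, hp0] at hpx₀; exact lt_irrefl _ hpx₀
    · rintro h; rw [h, hpL] at hpx₀; exact lt_irrefl _ hpx₀
  have hp1 := second_le_zero_of_max (f := p) (f' := p') hx₀'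
    (fun x hx => (hd x ⟨hx.1.le, hx.2.le⟩).1) (hd x₀ hx₀).2.2.1
    (fun x hx => hmax' x ⟨hx.1.le, hx.2.le⟩)
  have hF1 : 0 ≤ 1 - a - p x₀ + a * q x₀ := by
    have : 0 ≤ F₁ a (p x₀) (q x₀) := by linarith [hp1.2]
    rw [F₁] at this
    exact nonneg_of_mul_nonneg_right this hpx₀
  have hps : p x₀ ≤ s := hcon x₀ hx₀'
  -- q < 1 everywhere
  have hq1 : ∀ x ∈ Icc 0 L, q x < 1 := by
    intro x hx
    apply lt_of_le_of_ne (hmem x hx).2.2
    intro hx1
    have hxI : x ∈ Ioo 0 L := by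
      refine ⟨lt_of_le_of_ne hx.1 ?_, lt_of_le_of_ne hx.2 ?_⟩
      · rintro h; rw [← h, hq0] at hx1; exact zero_ne_one hx1
      · rintro h; rw [h, hqL] at hx1; exact zero_ne_one hx1
    have hq' := second_le_zero_of_max (f := q) (f' := q') hxI
      (fun x hx => (hd x ⟨hx.1.le, hx.2.le⟩).2.1) (hd x hx).2.2.2
      (fun z hz => by rw [hx1]; exact (hmem z ⟨hz.1.le, hz.2.le⟩).2.2)
    have huniq := linear_system_unique (u := fun z => 1 - q z) (v := fun _ => (0 : ℝ))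
      (u' := fun z => -q' z) (v' := fun _ => (0 : ℝ))
      (c₁₁ := fun z => b * p z - q z) (c₁₂ := fun _ => 0) (c₂₁ := fun _ => 0)
      (c₂₂ := fun _ => 0) (M := b + 1) hx (by linarith)
      (fun z hz => (hd z hz).2.1.const_sub 1) (fun z _ => hasDerivAt_const z 0)
      (fun z hz => ((hd z hz).2.2.2.neg).congr_deriv (by simp only [F₂]; ring))
      (fun z _ => (hasDerivAt_const z 0).congr_deriv (by ring))
      (fun z hz => by
        obtain ⟨⟨h1, h2⟩, h3, h4⟩ := hmem z hz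
        rw [abs_le]; constructor <;> nlinarith)
      (fun z _ => by simp; linarith) (fun z _ => by simp; linarith)
      (fun z _ => by simp; linarith) (by simp [hx1]) rfl (by simp [hq'.1]) rfl
    have := (huniq 0 (left_mem_Icc.mpr hL.le)).1
    simp [hq0] at this
  -- maximum of q
  obtain ⟨x₁, hx₁, hmaxq⟩ := isCompact_Icc.exists_isMaxOn (nonempty_Icc.mpr hL.le) cq
  have hmaxq' : ∀ x ∈ Icc 0 L, q x ≤ q x₁ := fun x hx => hmaxq hx
  have hqx₀ : 0 < q x₀ := by nlinarith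
  have hqx₁ : 0 < q x₁ := lt_of_lt_of_le hqx₀ (hmaxq' x₀ hx₀)
  have hx₁' : x₁ ∈ Ioo 0 L := by
    refine ⟨lt_of_le_of_ne hx₁.1 ?_, lt_of_le_of_ne hx₁.2 ?_⟩
    · rintro h; rw [← h, hq0] at hqx₁; exact lt_irrefl _ hqx₁
    · rintro h; rw [h, hqL] at hqx₁; exact lt_irrefl _ hqx₁
  have hq2 := second_le_zero_of_max (f := q) (f' := q') hx₁'
    (fun x hx => (hd x ⟨hx.1.le, hx.2.le⟩).2.1) (hd x₁ hx₁).2.2.2
    (fun x hx => hmaxq' x ⟨hx.1.le, hx.2.le⟩)
  have hF2 : q x₁ ≤ b * p x₁ := by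
    have : 0 ≤ F₂ b (p x₁) (q x₁) := by linarith [hq2.2]
    rw [F₂] at this
    have := nonneg_of_mul_nonneg_right this (by linarith [hq1 x₁ hx₁] : 0 < 1 - q x₁)
    linarith
  have hpx₁ : p x₁ ≤ p x₀ := hmax' x₁ hx₁
  have hq01 : q x₀ ≤ q x₁ := hmaxq' x₀ hx₀
  have hbp : b * p x₁ ≤ b * p x₀ := mul_le_mul_of_nonneg_left hpx₁ (by linarith)
  have hqb : q x₀ ≤ b * p x₀ := by linarith
  -- p x₀ = s
  have hps' : s ≤ p x₀ := by
    have h1 : a * q x₀ ≤ a * (b * p x₀) := mul_le_mul_of_nonneg_left hqb (by linarith)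
    have h2 : (a - 1) ≤ p x₀ * (a * b - 1) := by linarith
    rw [hs, div_le_iff₀ hab]; exact h2
  have hpeq : p x₀ = s := le_antisymm hps hps'
  have hqeq : q x₀ = b * s := by
    apply le_antisymm (by rw [hpeq] at hqb; exact hqb)
    have h3 : a * (b * s) ≤ a * q x₀ := by
      rw [hpeq] at hF1
      linarith
    exact le_of_mul_le_mul_left h3 (by linarith)
  have hq3 := second_le_zero_of_max (f := q) (f' := q') hx₀'
    (fun x hx => (hd x ⟨hx.1.le, hx.2.le⟩).2.1) (hd x₀ hx₀).2.2.2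
    (fun x hx => by
      have h4 := hmaxq' x ⟨hx.1.le, hx.2.le⟩
      rw [hqeq]
      have : b * p x₀ = b * s := by rw [hpeq]
      linarith)
  have huniq := linear_system_unique (u := fun z => s - p z) (v := fun z => b * s - q z)
      (u' := fun z => -p' z) (v' := fun z => -q' z)
      (c₁₁ := fun z => p z) (c₁₂ := fun z => -(a * p z)) (c₂₁ := fun z => -(b * (1 - q z)))
      (c₂₂ := fun z => 1 - q z) (M := a + b) hx₀ (by linarith)
      (fun z hz => (hd z hz).1.const_sub s) (fun z hz => (hd z hz).2.1.const_sub (b * s))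
      (fun z hz => ((hd z hz).2.2.1.neg).congr_deriv (by
        simp only [F₁]; linear_combination (p z) * hseq))
      (fun z hz => ((hd z hz).2.2.2.neg).congr_deriv (by simp only [F₂]; ring))
      (fun z hz => by
        obtain ⟨⟨h1, h2⟩, h3, h4⟩ := hmem z hz
        rw [abs_le]; constructor <;> nlinarith)
      (fun z hz => by
        obtain ⟨⟨h1, h2⟩, h3, h4⟩ := hmem z hz
        rw [abs_le]; constructor <;> nlinarith)
      (fun z hz => by
        obtain ⟨⟨h1, h2⟩, h3, h4⟩ := hmem z hz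
        rw [abs_le]; constructor <;> nlinarith)
      (fun z hz => by
        obtain ⟨⟨h1, h2⟩, h3, h4⟩ := hmem z hz
        rw [abs_le]; constructor <;> nlinarith)
      (by simp [hpeq]) (by simp [hqeq]) (by simp [hp1.1]) (by simp [hq3.1])
  have := (huniq 0 (left_mem_Icc.mpr hL.le)).1
  simp only [hp0, sub_zero] at this
  exact hspos.ne' this

end Pool.Agent.H62.LV
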