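import Pool.Agent.H62.LV.Base
import Pool.Agent.H62.LV.Lin
import Pool.Agent.Helper33.LV.P4

namespace Pool.Agent.H62.LV

open MeasureTheory Set Filter Topology

theorem IsSolution.reg₁ {a b L : ℝ} {y₁₀ y₂₀ : ℝ → ℝ} {u₁ u₂ : Bool → ℝ → ℝ}
    {y₁ y₂ : ℝ → ℝ → ℝ} (hs : IsSolution a b L y₁₀ y₂₀ u₁ u₂ y₁ y₂) : Reg L y₁ :=
  ⟨hs.cont₁, fun T => by
    obtain ⟨C, hC⟩ := hs.bdd T
    exact ⟨C, fun t ht x hx => (hC t ht x ⟨hx.1.le, hx.2.le⟩).1⟩⟩

theorem IsSolution.reg₂ {a b L : ℝ} {y₁₀ y₂₀ : ℝ → ℝ} {u₁ u₂ : Bool → ℝ → ℝ}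
    {y₁ y₂ : ℝ → ℝ → ℝ} (hs : IsSolution a b L y₁₀ y₂₀ u₁ u₂ y₁ y₂) : Reg L y₂ :=
  ⟨hs.cont₂, fun T => by
    obtain ⟨C, hC⟩ := hs.bdd T
    exact ⟨C, fun t ht x hx => (hC t ht x ⟨hx.1.le, hx.2.le⟩).2⟩⟩

theorem Reg.mul {L : ℝ} {w w' : ℝ → ℝ → ℝ} (hw : Reg L w) (hw' : Reg L w') :
    Reg L (fun t x => w t x * w' t x) := by
  refine ⟨hw.cont.mul hw'.cont, fun T => ?_⟩
  obtain ⟨C, hC⟩ := hw.bdd T
  obtain ⟨C', hC'⟩ := hw'.bdd T
  refine ⟨C * C', fun t ht x hx => ?_⟩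
  rw [abs_mul]
  exact mul_le_mul (hC t ht x hx) (hC' t ht x hx) (abs_nonneg _)
    ((abs_nonneg _).trans (hC t ht x hx))

theorem Reg.congr {L : ℝ} {w w' : ℝ → ℝ → ℝ} (hw : Reg L w) (h : ∀ t x, w t x = w' t x) :
    Reg L w' := by
  have : w = w' := by ext t x; exact h t x
  rwa [← this]

theorem WeakHeat.congr {L : ℝ} {w₀ l r w₀' l' r' : ℝ → ℝ} {h w h' w' : ℝ → ℝ → ℝ}
    (H : WeakHeat L w₀ l r h w) (e₀ : ∀ x, w₀ x = w₀' x) (el : ∀ t, l t = l' t)
    (er : ∀ t, r t = r' t) (eh : ∀ t x, h t x = h' t x) (ew : ∀ t x, w t x = w' t x) :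
    WeakHeat L w₀' l' r' h' w' := by
  have a1 : w₀ = w₀' := funext e₀
  have a2 : l = l' := funext el
  have a3 : r = r' := funext er
  have a4 : h = h' := by ext t x; exact eh t x
  have a5 : w = w' := by ext t x; exact ew t x
  rw [← a1, ← a2, ← a3, ← a4, ← a5]; exact H

theorem IsDatum.integrable {L : ℝ} (hL : 0 < L) {y₀ : ℝ → ℝ} (h : IsDatum L y₀) :
    IntervalIntegrable y₀ volume 0 L := by
  rw [intervalIntegrable_iff_integrableOn_Ioo_of_le hL.le]
  refine IntegrableOn.of_bound (by simp) (h.1.aestronglyMeasurable measurableSet_Ioo) 1 ?_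
  refine (ae_restrict_mem measurableSet_Ioo).mono (fun x hx => ?_)
  have := h.2 x hx
  rw [Real.norm_eq_abs, abs_of_nonneg this.1]; exact this.2

theorem IsControl.bdata {u : Bool → ℝ → ℝ} (hu : IsControl u) (e : Bool) : BData (u e) :=
  ⟨(hu e).1, 1, fun t ht => by
    have := (hu e).2 t ht
    rw [abs_of_nonneg this.1]; exact this.2⟩

/-- scalar comparison principle -/
theorem comparison_scalar {L T K κ : ℝ} (hL : 0 < L) (hT : 0 < T) (hK : 0 ≤ K) (hκ : 0 ≤ κ)
    {w h : ℝ → ℝ → ℝ} {w₀ l r : ℝ → ℝ} (reg : Reg L w) (regh : Reg L h)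
    (i₀ : IntervalIntegrable w₀ volume 0 L) (p₀ : ∀ x ∈ Ioo 0 L, 0 ≤ w₀ x)
    (bl : BData l) (br : BData r) (nl : ∀ t, 0 < t → 0 ≤ l t) (nr : ∀ t, 0 < t → 0 ≤ r t)
    (weak : WeakHeat L w₀ l r h w)
    (coop : ∀ t ∈ Ioc 0 T, ∀ x ∈ Ioo 0 L, ∀ m : ℝ, 0 ≤ m → -m ≤ w t x →
      -(κ * m) ≤ h t x + K * w t x) :
    ∀ t ∈ Ioc 0 T, ∀ x ∈ Ioo 0 L, 0 ≤ w t x := by
  intro t ht x hx
  exact (comparison hL hT hK hκ reg reg regh regh i₀ i₀ p₀ p₀ bl br bl br nl nr nl nr weak weak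
    (fun t ht x hx m hm h1 _ => ⟨coop t ht x hx m hm h1, coop t ht x hx m hm h1⟩) t ht x hx).1

/-- solutions with data in `[0,1]` stay in `[0,1]` -/
theorem solution_mem {a b L : ℝ} (ha : 0 < a) (hb : 0 < b) (hL : 0 < L)
    {y₁₀ y₂₀ : ℝ → ℝ} (h1 : IsDatum L y₁₀) (h2 : IsDatum L y₂₀) {u₁ u₂ : Bool → ℝ → ℝ}
    (hu₁ : IsControl u₁) (hu₂ : IsControl u₂) {y₁ y₂ : ℝ → ℝ → ℝ}
    (hs : IsSolution a b L y₁₀ y₂₀ u₁ u₂ y₁ y₂) :
    ∀ t, 0 < t → ∀ x ∈ Ioo 0 L, y₁ t x ∈ Icc (0 : ℝ) 1 ∧ y₂ t x ∈ Icc (0 : ℝ) 1 := by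
  intro T hT
  obtain ⟨C, hC⟩ := hs.bdd T
  have hC' : ∀ t ∈ Ioc 0 T, ∀ x ∈ Ioo 0 L, |y₁ t x| ≤ C ∧ |y₂ t x| ≤ C :=
    fun t ht x hx => hC t ht x ⟨hx.1.le, hx.2.le⟩
  have hC0 : 0 ≤ C := by
    have := (hC T ⟨hT, le_refl T⟩ (L / 2) ⟨by linarith, by linarith⟩).1
    exact (abs_nonneg _).trans this
  have r1 := hs.reg₁
  have r2 := hs.reg₂
  have g1 : Reg L (fun t x => y₁ t x * (1 - y₁ t x - a * y₂ t x)) := by
    have := r1.mul (((reg_one L).lin r1 1 (-1)).lin r2 1 (-a))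
    exact this.congr (fun t x => by ring)
  have g2 : Reg L (fun t x => y₂ t x * (1 - b * y₁ t x - y₂ t x)) := by
    have := r2.mul (((reg_one L).lin r1 1 (-b)).lin r2 1 (-1))
    exact this.congr (fun t x => by ring)
  -- lower bounds
  have low1 : ∀ t ∈ Ioc 0 T, ∀ x ∈ Ioo 0 L, 0 ≤ y₁ t x := by
    refine comparison_scalar (K := 1 + C + a * C) (κ := 2 * (1 + C + a * C)) hL hT
      (by positivity) (by positivity) r1 g1 (h1.integrable hL) (fun x hx => (h1.2 x hx).1)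
      (hu₁.bdata false) (hu₁.bdata true) (fun t ht => ((hu₁ false).2 t ht).1)
      (fun t ht => ((hu₁ true).2 t ht).1) hs.weak₁ ?_
    intro t ht x hx m hm hmw
    obtain ⟨b1, b2⟩ := hC' t ht x hx
    rw [abs_le] at b1 b2
    have hc0 : 0 ≤ (1 - y₁ t x - a * y₂ t x) + (1 + C + a * C) := by nlinarith
    have hc1 : (1 - y₁ t x - a * y₂ t x) + (1 + C + a * C) ≤ 2 * (1 + C + a * C) := by
      nlinarith
    nlinarith
  have low2 : ∀ t ∈ Ioc 0 T, ∀ x ∈ Ioo 0 L, 0 ≤ y₂ t x := by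
    refine comparison_scalar (K := 1 + C + b * C) (κ := 2 * (1 + C + b * C)) hL hT
      (by positivity) (by positivity) r2 g2 (h2.integrable hL) (fun x hx => (h2.2 x hx).1)
      (hu₂.bdata false) (hu₂.bdata true) (fun t ht => ((hu₂ false).2 t ht).1)
      (fun t ht => ((hu₂ true).2 t ht).1) hs.weak₂ ?_
    intro t ht x hx m hm hmw
    obtain ⟨b1, b2⟩ := hC' t ht x hx
    rw [abs_le] at b1 b2
    have hc0 : 0 ≤ (1 - b * y₁ t x - y₂ t x) + (1 + C + b * C) := by nlinarith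
    have hc1 : (1 - b * y₁ t x - y₂ t x) + (1 + C + b * C) ≤ 2 * (1 + C + b * C) := by
      nlinarith
    nlinarith
  -- upper bounds
  have w1 := weak_one hL
  have up1 : ∀ t ∈ Ioc 0 T, ∀ x ∈ Ioo 0 L, 0 ≤ 1 - y₁ t x := by
    have hw := WeakHeat.lin hL (reg_one L) (reg_zero L) r1 g1 intervalIntegrable_const
      (h1.integrable hL) (bdata_const 1) (bdata_const 1) (hu₁.bdata false) (hu₁.bdata true)
      w1 hs.weak₁ 1 (-1)
    refine comparison_scalar (K := C) (κ := C)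
      (w := fun t x => 1 - y₁ t x)
      (h := fun t x => -(y₁ t x * (1 - y₁ t x - a * y₂ t x)))
      (w₀ := fun x => 1 - y₁₀ x) (l := fun t => 1 - u₁ false t) (r := fun t => 1 - u₁ true t)
      hL hT hC0 hC0 ?_ ?_ ?_ ?_ ?_ ?_ ?_ ?_ ?_ ?_
    · exact ((reg_one L).lin r1 1 (-1)).congr (fun t x => by ring)
    · exact ((reg_zero L).lin g1 1 (-1)).congr (fun t x => by ring)
    · exact intervalIntegrable_const.sub (h1.integrable hL)
    · intro x hx; linarith [(h1.2 x hx).2]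
    · have := (bdata_const 1).lin (hu₁.bdata false) 1 (-1)
      have e : (fun t => 1 * (1 : ℝ) + -1 * u₁ false t) = fun t => 1 - u₁ false t := by
        ext t; ring
      rwa [e] at this
    · have := (bdata_const 1).lin (hu₁.bdata true) 1 (-1)
      have e : (fun t => 1 * (1 : ℝ) + -1 * u₁ true t) = fun t => 1 - u₁ true t := by
        ext t; ring
      rwa [e] at this
    · intro t ht; linarith [((hu₁ false).2 t ht).2]
    · intro t ht; linarith [((hu₁ true).2 t ht).2]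
    · exact hw.congr (fun x => by ring) (fun t => by ring) (fun t => by ring)
        (fun t x => by ring) (fun t x => by ring)
    · intro t ht x hx m hm hmw
      obtain ⟨b1, b2⟩ := hC' t ht x hx
      rw [abs_le] at b1 b2
      have l1 := low1 t ht x hx
      have l2 := low2 t ht x hx
      have e : -(y₁ t x * (1 - y₁ t x - a * y₂ t x)) + C * (1 - y₁ t x) =
        (C - y₁ t x) * (1 - y₁ t x) + a * (y₁ t x * y₂ t x) := by ring
      rw [e]
      have q1 : 0 ≤ a * (y₁ t x * y₂ t x) := by positivity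
      have q2 : 0 ≤ C - y₁ t x := by linarith [b1.2]
      nlinarith
  have up2 : ∀ t ∈ Ioc 0 T, ∀ x ∈ Ioo 0 L, 0 ≤ 1 - y₂ t x := by
    have hw := WeakHeat.lin hL (reg_one L) (reg_zero L) r2 g2 intervalIntegrable_const
      (h2.integrable hL) (bdata_const 1) (bdata_const 1) (hu₂.bdata false) (hu₂.bdata true)
      w1 hs.weak₂ 1 (-1)
    refine comparison_scalar (K := C) (κ := C)
      (w := fun t x => 1 - y₂ t x)
      (h := fun t x => -(y₂ t x * (1 - b * y₁ t x - y₂ t x)))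
      (w₀ := fun x => 1 - y₂₀ x) (l := fun t => 1 - u₂ false t) (r := fun t => 1 - u₂ true t)
      hL hT hC0 hC0 ?_ ?_ ?_ ?_ ?_ ?_ ?_ ?_ ?_ ?_
    · exact ((reg_one L).lin r2 1 (-1)).congr (fun t x => by ring)
    · exact ((reg_zero L).lin g2 1 (-1)).congr (fun t x => by ring)
    · exact intervalIntegrable_const.sub (h2.integrable hL)
    · intro x hx; linarith [(h2.2 x hx).2]
    · have := (bdata_const 1).lin (hu₂.bdata false) 1 (-1)
      have e : (fun t => 1 * (1 : ℝ) + -1 * u₂ false t) = fun t => 1 - u₂ false t := by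
        ext t; ring
      rwa [e] at this
    · have := (bdata_const 1).lin (hu₂.bdata true) 1 (-1)
      have e : (fun t => 1 * (1 : ℝ) + -1 * u₂ true t) = fun t => 1 - u₂ true t := by
        ext t; ring
      rwa [e] at this
    · intro t ht; linarith [((hu₂ false).2 t ht).2]
    · intro t ht; linarith [((hu₂ true).2 t ht).2]
    · exact hw.congr (fun x => by ring) (fun t => by ring) (fun t => by ring)
        (fun t x => by ring) (fun t x => by ring)
    · intro t ht x hx m hm hmw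
      obtain ⟨b1, b2⟩ := hC' t ht x hx
      rw [abs_le] at b1 b2
      have l1 := low1 t ht x hx
      have l2 := low2 t ht x hx
      have e : -(y₂ t x * (1 - b * y₁ t x - y₂ t x)) + C * (1 - y₂ t x) =
        (C - y₂ t x) * (1 - y₂ t x) + b * (y₁ t x * y₂ t x) := by ring
      rw [e]
      have q1 : 0 ≤ b * (y₁ t x * y₂ t x) := by positivity
      have q2 : 0 ≤ C - y₂ t x := by linarith [b2.2]
      nlinarith
  intro x hx
  have hT' : T ∈ Ioc 0 T := ⟨hT, le_refl T⟩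
  exact ⟨⟨low1 T hT' x hx, by linarith [up1 T hT' x hx]⟩,
    ⟨low2 T hT' x hx, by linarith [up2 T hT' x hx]⟩⟩

/-- a solution started at a barrier stays on the right side of it, whatever the controls -/
theorem barrier_below {a b L : ℝ} (ha : 0 < a) (hb : 0 < b) (hL : 0 < L) {p q : ℝ → ℝ}
    (hst : Stat a b L p q) (hz : p 0 = 0 ∧ q 0 = 0 ∧ p L = 0 ∧ q L = 0)
    {u₁ u₂ : Bool → ℝ → ℝ} (hu₁ : IsControl u₁) (hu₂ : IsControl u₂) {y₁ y₂ : ℝ → ℝ → ℝ}
    (hs : IsSolution a b L p (fun x => 1 - q x) u₁ u₂ y₁ y₂) :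
    ∀ t, 0 < t → ∀ x ∈ Ioo 0 L, p x ≤ y₁ t x := by
  obtain ⟨hmem, p', q', hd⟩ := hst
  obtain ⟨hp0, hq0, hpL, hqL⟩ := hz
  have cp : ContinuousOn p (Icc 0 L) := fun x hx =>
    (hd x hx).1.continuousAt.continuousWithinAt
  have cq : ContinuousOn q (Icc 0 L) := fun x hx =>
    (hd x hx).2.1.continuousAt.continuousWithinAt
  have dp : IsDatum L p :=
    ⟨cp.mono Ioo_subset_Icc_self, fun x hx => (hmem x ⟨hx.1.le, hx.2.le⟩).1⟩
  have dq : IsDatum L (fun x => 1 - q x) :=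
    ⟨(continuousOn_const.sub cq).mono Ioo_subset_Icc_self, fun x hx => by
      have := (hmem x ⟨hx.1.le, hx.2.le⟩).2
      exact ⟨by linarith [this.2], by linarith [this.1]⟩⟩
  have dq' : IntervalIntegrable q volume 0 L := by
    apply ContinuousOn.intervalIntegrable
    rwa [uIcc_of_le hL.le]
  have hmy := solution_mem ha hb hL dp dq hu₁ hu₂ hs
  have r1 := hs.reg₁
  have r2 := hs.reg₂
  have g1 : Reg L (fun t x => y₁ t x * (1 - y₁ t x - a * y₂ t x)) := by
    have := r1.mul (((reg_one L).lin r1 1 (-1)).lin r2 1 (-a))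
    exact this.congr (fun t x => by ring)
  have g2 : Reg L (fun t x => y₂ t x * (1 - b * y₁ t x - y₂ t x)) := by
    have := r2.mul (((reg_one L).lin r1 1 (-b)).lin r2 1 (-1))
    exact this.congr (fun t x => by ring)
  have cF1 : ContinuousOn (fun x => F₁ a (p x) (q x)) (Icc 0 L) := by
    unfold F₁; fun_prop
  have cF2 : ContinuousOn (fun x => F₂ b (p x) (q x)) (Icc 0 L) := by
    unfold F₂; fun_prop
  have regc : ∀ {f : ℝ → ℝ}, ContinuousOn f (Icc 0 L) → Reg L (fun _ x => f x) := by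
    intro f hf
    refine ⟨(hf.mono Ioo_subset_Icc_self).comp (f := fun z : ℝ × ℝ => z.2)
      (by fun_prop) (fun z hz => hz.2), fun T => ?_⟩
    obtain ⟨C, hC⟩ := isCompact_Icc.exists_bound_of_continuousOn hf
    exact ⟨C, fun t _ x hx => hC x ⟨hx.1.le, hx.2.le⟩⟩
  have wp := weak_of_stationary hL (p := p) (p' := p') (F := fun x => F₁ a (p x) (q x))
    (fun x hx => ⟨(hd x hx).1, (hd x hx).2.2.1⟩) cF1 hp0 hpL
  have wq := weak_of_stationary hL (p := q) (p' := q') (F := fun x => F₂ b (p x) (q x))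
    (fun x hx => ⟨(hd x hx).2.1, (hd x hx).2.2.2⟩) cF2 hq0 hqL
  have wa := WeakHeat.lin hL r1 g1 (regc cp) (regc cF1) (dp.integrable hL) (dp.integrable hL)
    (hu₁.bdata false) (hu₁.bdata true) (bdata_const 0) (bdata_const 0) hs.weak₁ wp 1 (-1)
  have wb0 := WeakHeat.lin hL (reg_one L) (reg_zero L) r2 g2 intervalIntegrable_const
    (dq.integrable hL) (bdata_const 1) (bdata_const 1) (hu₂.bdata false) (hu₂.bdata true)
    (weak_one hL) hs.weak₂ 1 (-1)
  have wb := WeakHeat.lin hL ((reg_one L).lin r2 1 (-1)) ((reg_zero L).lin g2 1 (-1))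
    (regc cq) (regc cF2)
    ((intervalIntegrable_const.const_mul 1).add ((dq.integrable hL).const_mul (-1))) dq'
    ((bdata_const 1).lin (hu₂.bdata false) 1 (-1))
    ((bdata_const 1).lin (hu₂.bdata true) 1 (-1)) (bdata_const 0) (bdata_const 0) wb0 wq 1 (-1)
  intro T hT x hx
  have key := comparison (K := 1 + a + b) (κ := 2 * (1 + a + b)) hL hT (by positivity)
    (by positivity)
    (w₁ := fun t x => y₁ t x - p x) (w₂ := fun t x => (1 - y₂ t x) - q x)
    (h₁ := fun t x => y₁ t x * (1 - y₁ t x - a * y₂ t x) - F₁ a (p x) (q x))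
    (h₂ := fun t x => -(y₂ t x * (1 - b * y₁ t x - y₂ t x)) - F₂ b (p x) (q x))
    (w₁₀ := fun x => p x - p x) (w₂₀ := fun x => (1 - (1 - q x)) - q x)
    (l₁ := fun t => u₁ false t) (r₁ := fun t => u₁ true t)
    (l₂ := fun t => 1 - u₂ false t) (r₂ := fun t => 1 - u₂ true t)
    ((r1.lin (regc cp) 1 (-1)).congr (fun t x => by ring))
    ((((reg_one L).lin r2 1 (-1)).lin (regc cq) 1 (-1)).congr (fun t x => by ring))
    ((g1.lin (regc cF1) 1 (-1)).congr (fun t x => by ring))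
    ((((reg_zero L).lin g2 1 (-1)).lin (regc cF2) 1 (-1)).congr (fun t x => by ring))
    ((dp.integrable hL).sub (dp.integrable hL))
    ((intervalIntegrable_const.sub (dq.integrable hL)).sub dq')
    (fun x _ => by simp) (fun x _ => by simp)
    (hu₁.bdata false) (hu₁.bdata true)
    (by
      have := (bdata_const 1).lin (hu₂.bdata false) 1 (-1)
      have e : (fun t => 1 * (1 : ℝ) + -1 * u₂ false t) = fun t => 1 - u₂ false t := by
        ext t; ring
      rwa [e] at this)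
    (by
      have := (bdata_const 1).lin (hu₂.bdata true) 1 (-1)
      have e : (fun t => 1 * (1 : ℝ) + -1 * u₂ true t) = fun t => 1 - u₂ true t := by
        ext t; ring
      rwa [e] at this)
    (fun t ht => ((hu₁ false).2 t ht).1) (fun t ht => ((hu₁ true).2 t ht).1)
    (fun t ht => by linarith [((hu₂ false).2 t ht).2])
    (fun t ht => by linarith [((hu₂ true).2 t ht).2])
    (wa.congr (fun x => by ring) (fun t => by ring) (fun t => by ring) (fun t x => by ring)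
      (fun t x => by ring))
    (wb.congr (fun x => by ring) (fun t => by ring) (fun t => by ring) (fun t x => by ring)
      (fun t x => by ring))
    (by
      intro t ht x hx m hm h1 h2
      obtain ⟨⟨a1, a2⟩, a3, a4⟩ := hmy t ht.1 x hx
      obtain ⟨⟨b1, b2⟩, b3, b4⟩ := hmem x ⟨hx.1.le, hx.2.le⟩
      generalize y₁ t x = Y at *
      generalize y₂ t x = Z at *
      generalize p x = P at *
      generalize q x = Q at *
      constructor
      · have e : Y * (1 - Y - a * Z) - F₁ a P Q + (1 + a + b) * (Y - P) =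
          (1 + a + b + 1 - a - (Y + P) + a * (1 - Z)) * (Y - P) + a * P * ((1 - Z) - Q) := by
          simp only [F₁]; ring
        rw [e]
        have c1 : 0 ≤ 1 + a + b + 1 - a - (Y + P) + a * (1 - Z) := by nlinarith
        have c2 : 1 + a + b + 1 - a - (Y + P) + a * (1 - Z) ≤ 2 + a + b := by nlinarith
        have c3 : 0 ≤ a * P := by positivity
        have c4 : a * P ≤ a := by nlinarith
        nlinarith [mul_nonneg c1 (by linarith : 0 ≤ (Y - P) + m),
          mul_nonneg c3 (by linarith : 0 ≤ ((1 - Z) - Q) + m)]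
      · have e : -(Z * (1 - b * Y - Z)) - F₂ b P Q + (1 + a + b) * ((1 - Z) - Q) =
          b * Z * (Y - P) + (1 + a + b - b * P - Z + Q) * ((1 - Z) - Q) := by
          simp only [F₂]; ring
        rw [e]
        have c1 : 0 ≤ b * Z := by positivity
        have c2 : b * Z ≤ b := by nlinarith
        have c3 : 0 ≤ 1 + a + b - b * P - Z + Q := by nlinarith
        have c4 : 1 + a + b - b * P - Z + Q ≤ 2 + a + b := by nlinarith
        nlinarith [mul_nonneg c1 (by linarith : 0 ≤ (Y - P) + m),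
          mul_nonneg c3 (by linarith : 0 ≤ ((1 - Z) - Q) + m)])
    T ⟨hT, le_refl T⟩ x hx
  linarith [key.1]

end Pool.Agent.H62.LV
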