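import Pool.Agent.H62.LV.P14a
import Pool.Agent.H62.LV.P14b
import Pool.Agent.H62.LV.P14c
import Pool.Agent.Helper79.LV.P6
import Pool.Agent.Helper59.LV.P7

namespace Pool.Agent.H62.LV

open MeasureTheory Set Filter Topology

theorem controllable_of_no_bar {a b L : ℝ} (ha : 0 < a) (hb : 1 < b) (hL : 0 < L)
    (hno : ¬ Bar a b L) {y₁₀ y₂₀ : ℝ → ℝ} (h1 : IsDatum L y₁₀) (h2 : IsDatum L y₂₀) :
    AsympControllable a b L y₁₀ y₂₀ 0 1 := by
  have hb0 : 0 < b := by linarith
  -- extended data in the cooperative variables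
  set p₀ : ℝ → ℝ := (Ioo 0 L).indicator y₁₀ with hp₀
  set q₀ : ℝ → ℝ := (Ioo 0 L).indicator (fun x => 1 - y₂₀ x) with hq₀
  have mp : Measurable p₀ := by
    classical
    have h := h1.1.measurable_piecewise (g := fun _ => (0 : ℝ)) continuousOn_const
      measurableSet_Ioo
    have e : p₀ = (Ioo 0 L).piecewise y₁₀ (fun _ => (0 : ℝ)) := by
      ext x
      by_cases hx : x ∈ Ioo 0 L
      · rw [hp₀, indicator_of_mem hx, Set.piecewise_eq_of_mem _ _ _ hx]
      · rw [hp₀, indicator_of_notMem hx, Set.piecewise_eq_of_notMem _ _ _ hx]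
    rw [e]; exact h
  have mq : Measurable q₀ := by
    classical
    have hc : ContinuousOn (fun x => 1 - y₂₀ x) (Ioo 0 L) := continuousOn_const.sub h2.1
    have h := hc.measurable_piecewise (g := fun _ => (0 : ℝ)) continuousOn_const
      measurableSet_Ioo
    have e : q₀ = (Ioo 0 L).piecewise (fun x => 1 - y₂₀ x) (fun _ => (0 : ℝ)) := by
      ext x
      by_cases hx : x ∈ Ioo 0 L
      · rw [hq₀, indicator_of_mem hx, Set.piecewise_eq_of_mem _ _ _ hx]
      · rw [hq₀, indicator_of_notMem hx, Set.piecewise_eq_of_notMem _ _ _ hx]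
    rw [e]; exact h
  have bp : ∀ x, p₀ x ∈ Icc (0 : ℝ) 1 := by
    intro x
    by_cases hx : x ∈ Ioo 0 L
    · rw [hp₀, indicator_of_mem hx]; exact h1.2 x hx
    · rw [hp₀, indicator_of_notMem hx]; exact ⟨le_refl _, zero_le_one⟩
  have bq : ∀ x, q₀ x ∈ Icc (0 : ℝ) 1 := by
    intro x
    by_cases hx : x ∈ Ioo 0 L
    · rw [hq₀, indicator_of_mem hx]
      have := h2.2 x hx
      exact ⟨by linarith [this.2], by linarith [this.1]⟩
    · rw [hq₀, indicator_of_notMem hx]; exact ⟨le_refl _, zero_le_one⟩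
  obtain ⟨p, q, hs⟩ := exists_coop ha hb0 hL mp mq bp bq
  have hdec := decay_of_no_bar ha hb hL hno mp mq bp bq hs
  have rp : Reg L p := ⟨hs.contp.mono (prod_mono_right Ioo_subset_Icc_self), fun T =>
    ⟨1, fun t ht x hx => by
      have := (hs.mem t ht.1 x ⟨hx.1.le, hx.2.le⟩).1
      rw [abs_of_nonneg this.1]; exact this.2⟩⟩
  have rq : Reg L q := ⟨hs.contq.mono (prod_mono_right Ioo_subset_Icc_self), fun T =>
    ⟨1, fun t ht x hx => by
      have := (hs.mem t ht.1 x ⟨hx.1.le, hx.2.le⟩).2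
      rw [abs_of_nonneg this.1]; exact this.2⟩⟩
  have gp : Reg L (fun t x => F₁ a (p t x) (q t x)) := by
    have := rp.mul (((reg_one L).lin rp (1 - a) (-1)).lin rq 1 a)
    exact this.congr (fun t x => by simp only [F₁]; ring)
  have gq : Reg L (fun t x => F₂ b (p t x) (q t x)) := by
    have := ((reg_one L).lin rq 1 (-1)).mul (rp.lin rq b (-1))
    exact this.congr (fun t x => by simp only [F₂]; ring)
  have iq₀ : IntervalIntegrable q₀ volume 0 L := by
    rw [intervalIntegrable_iff_integrableOn_Ioo_of_le hL.le]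
    refine IntegrableOn.of_bound (by simp) mq.aestronglyMeasurable 1 ?_
    refine Filter.Eventually.of_forall (fun x => ?_)
    rw [Real.norm_eq_abs, abs_of_nonneg (bq x).1]; exact (bq x).2
  refine ⟨fun _ _ => 0, fun _ _ => 1, ?_, ?_, p, fun t x => 1 - q t x, ?_, ?_⟩
  · exact fun e => ⟨measurable_const, fun t _ => ⟨le_refl _, zero_le_one⟩⟩
  · exact fun e => ⟨measurable_const, fun t _ => ⟨zero_le_one, le_refl _⟩⟩
  · refine ⟨rp.cont, continuousOn_const.sub rq.cont, ?_, ?_, ?_, ?_, ?_⟩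
    · intro T
      refine ⟨1, fun t ht x hx => ?_⟩
      obtain ⟨⟨a1, a2⟩, a3, a4⟩ := hs.mem t ht.1 x hx
      exact ⟨by rw [abs_le]; constructor <;> linarith, by rw [abs_le]; constructor <;> linarith⟩
    · intro t ht
      obtain ⟨e1, e2, e3, e4⟩ := hs.bdry t ht
      exact ⟨e1, e2⟩
    · intro t ht
      obtain ⟨e1, e2, e3, e4⟩ := hs.bdry t ht
      exact ⟨by simp [e3], by simp [e4]⟩
    · intro φ hφ h0 hφL t ht
      have := hs.weakp φ hφ h0 hφL t ht
      have e0 : ∫ x in (0 : ℝ)..L, y₁₀ x * φ x = ∫ x in (0 : ℝ)..L, p₀ x * φ x := by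
        rw [intervalIntegral.integral_of_le hL.le, intervalIntegral.integral_of_le hL.le,
          integral_Ioc_eq_integral_Ioo, integral_Ioc_eq_integral_Ioo]
        apply setIntegral_congr_fun measurableSet_Ioo
        intro x hx
        simp only [hp₀, indicator_of_mem hx]
      rw [e0, this]
      congr 1
      apply intervalIntegral.integral_congr
      intro s _
      simp only []
      congr 2
      apply intervalIntegral.integral_congr
      intro x _
      simp only [F₁]; ring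
    · have w := WeakHeat.lin hL (reg_one L) (reg_zero L) rq gq intervalIntegrable_const
        iq₀ (bdata_const 1) (bdata_const 1) (bdata_const 0) (bdata_const 0) (weak_one hL)
        hs.weakq 1 (-1)
      intro φ hφ h0 hφL t ht
      have := w φ hφ h0 hφL t ht
      have e0 : ∫ x in (0 : ℝ)..L, y₂₀ x * φ x =
          ∫ x in (0 : ℝ)..L, (1 * 1 + -1 * q₀ x) * φ x := by
        rw [intervalIntegral.integral_of_le hL.le, intervalIntegral.integral_of_le hL.le,
          integral_Ioc_eq_integral_Ioo, integral_Ioc_eq_integral_Ioo]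
        apply setIntegral_congr_fun measurableSet_Ioo
        intro x hx
        simp only [hq₀, indicator_of_mem hx]; ring
      have e1 : ∫ x in (0 : ℝ)..L, (1 - q t x) * φ x =
          ∫ x in (0 : ℝ)..L, (1 * 1 + -1 * q t x) * φ x := by
        congr 1; ext x; ring
      rw [e0, e1, this]
      congr 1
      apply intervalIntegral.integral_congr
      intro s _
      simp only []
      have e2 : ∫ x in (0 : ℝ)..L, ((1 * 1 + -1 * q s x) * deriv (deriv φ) x +
          (1 * 0 + -1 * F₂ b (p s x) (q s x)) * φ x) =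
          ∫ x in (0 : ℝ)..L, ((1 - q s x) * deriv (deriv φ) x +
          (1 - q s x) * (1 - b * p s x - (1 - q s x)) * φ x) := by
        congr 1; ext x; simp only [F₂]; ring
      rw [e2]; ring
  · intro ε hε
    obtain ⟨T, hT, h⟩ := hdec ε hε
    refine ⟨T, hT, fun t ht x hx => ?_⟩
    have ht0 : 0 < t := lt_of_lt_of_le hT ht
    obtain ⟨⟨a1, a2⟩, a3, a4⟩ := hs.mem t ht0 x hx
    obtain ⟨b1, b2⟩ := h t ht x hx
    constructor
    · rw [sub_zero, abs_of_nonneg a1]; exact b1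
    · have : (1 - q t x) - 1 = -(q t x) := by ring
      simp only [this, abs_neg, abs_of_nonneg a3]; exact b2

theorem main {a b : ℝ} (ha : 0 < a) (hb : 1 < b) (hab : a < b) :
    ∃ Lstar : ℝ, Real.pi < Lstar ∧
      (∀ L, 0 < L → L < Lstar → ∀ y₁₀ y₂₀ : ℝ → ℝ, IsDatum L y₁₀ → IsDatum L y₂₀ →
        AsympControllable a b L y₁₀ y₂₀ 0 1) ∧
      (∀ L, Lstar < L → (∃ θ₁ θ₂ : ℝ → ℝ, IsBarrier a b L θ₁ θ₂) ∧
        ∃ y₁₀ y₂₀ : ℝ → ℝ, IsDatum L y₁₀ ∧ IsDatum L y₂₀ ∧
          ¬ AsympControllable a b L y₁₀ y₂₀ 0 1 ∧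
          (1 < a → ¬ AsympControllable a b L y₁₀ y₂₀
            ((a - 1) / (a * b - 1)) ((b - 1) / (a * b - 1)))) := by
  have hb0 : 0 < b := by linarith
  obtain ⟨Ls, hpi, hlow, hup⟩ := exists_threshold ha hb hab
  refine ⟨Ls, hpi, ?_, ?_⟩
  · intro L hL hlt y₁₀ y₂₀ h1 h2
    exact controllable_of_no_bar ha hb hL (hlow L hL hlt) h1 h2
  · intro L hlt
    have hL : 0 < L := Real.pi_pos.trans (hpi.trans hlt)
    have hB := hup L hlt
    refine ⟨barrier_of_bar hL hB, ?_⟩
    obtain ⟨p, q, hst, hp0, hq0, hpL, hqL, x₀, hx₀, hne⟩ := hB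
    have hst' := hst
    obtain ⟨hmem, p', q', hd⟩ := hst'
    have cp : ContinuousOn p (Icc 0 L) := fun x hx =>
      (hd x hx).1.continuousAt.continuousWithinAt
    have cq : ContinuousOn q (Icc 0 L) := fun x hx =>
      (hd x hx).2.1.continuousAt.continuousWithinAt
    have dp : IsDatum L p :=
      ⟨cp.mono Ioo_subset_Icc_self, fun x hx => (hmem x ⟨hx.1.le, hx.2.le⟩).1⟩
    have dq : IsDatum L (fun x => 1 - q x) :=
      ⟨(continuousOn_const.sub cq).mono Ioo_subset_Icc_self, fun x hx => by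
        have := (hmem x ⟨hx.1.le, hx.2.le⟩).2
        exact ⟨by linarith [this.2], by linarith [this.1]⟩⟩
    -- no convergence to a state below the barrier somewhere
    have hnot : ∀ c₁ c₂ x₁ : ℝ, x₁ ∈ Ioo 0 L → c₁ < p x₁ →
        ¬ AsympControllable a b L p (fun x => 1 - q x) c₁ c₂ := by
      intro c₁ c₂ x₁ hx₁ hc hAC
      obtain ⟨u₁, u₂, hu₁, hu₂, y₁, y₂, hs, hconv⟩ := hAC
      have hbelow := barrier_below ha hb0 hL hst ⟨hp0, hq0, hpL, hqL⟩ hu₁ hu₂ hs
      obtain ⟨T, hT, h⟩ := hconv (p x₁ - c₁) (by linarith)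
      have h1 := (h T (le_refl T) x₁ ⟨hx₁.1.le, hx₁.2.le⟩).1
      have h2 := hbelow T hT x₁ hx₁
      have h3 := (abs_lt.mp h1).2
      linarith
    refine ⟨p, fun x => 1 - q x, dp, dq, ?_, ?_⟩
    · have hx₀' : x₀ ∈ Ioo 0 L := by
        refine ⟨lt_of_le_of_ne hx₀.1 ?_, lt_of_le_of_ne hx₀.2 ?_⟩
        · rintro h; exact hne (by rw [← h]; exact hp0)
        · rintro h; exact hne (by rw [h]; exact hpL)
      exact hnot 0 1 x₀ hx₀' (lt_of_le_of_ne (hmem x₀ hx₀).1.1 (Ne.symm hne))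
    · intro ha1
      obtain ⟨x₁, hx₁, h⟩ := bar_exceeds ha1 hb hL hst ⟨hp0, hq0, hpL, hqL⟩ ⟨x₀, hx₀, hne⟩
      exact hnot _ _ x₁ hx₁ h

end Pool.Agent.H62.LV
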